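import Mathlib
import Pool.Agent.H713R2.AR.AF5

/-! # Faber polynomials of an exterior map and the Grunsky coefficients -/

set_option autoImplicit false

open Topology Filter Metric Set Polynomial MeasureTheory
open Pool.Agent.H713R2 Pool.Agent.H713R2.AR

namespace Pool.Agent.K4H45.LL

/-! ### Taylor coefficients -/

theorem tc_sub {F G : ℂ → ℂ} {r : ℝ} (hr : 0 < r) (hF : DifferentiableOn ℂ F (ball 0 r))
    (hG : DifferentiableOn ℂ G (ball 0 r)) (k : ℕ) :
    tc (fun t => F t - G t) k = tc F k - tc G k := by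
  have h := tc_unique (a := fun k => tc F k - tc G k) (F := fun t => F t - G t) hr (hF.sub hG) ?_
  · rw [← h]
  · filter_upwards [ball_mem_nhds (0 : ℂ) hr] with x hx
    have h1 := (hasSum_tc hF hx).sub (hasSum_tc hG hx)
    refine h1.congr_fun fun k => ?_
    ring

theorem tc_const_mul {F : ℂ → ℂ} {r : ℝ} (hr : 0 < r) (hF : DifferentiableOn ℂ F (ball 0 r))
    (c : ℂ) (k : ℕ) : tc (fun t => c * F t) k = c * tc F k := by
  have h := tc_unique (a := fun k => c * tc F k) (F := fun t => c * F t) hr (hF.const_mul c) ?_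
  · rw [← h]
  · filter_upwards [ball_mem_nhds (0 : ℂ) hr] with x hx
    have h1 := (hasSum_tc hF hx).mul_left c
    refine h1.congr_fun fun k => ?_
    ring

theorem tc_sum {ι : Type*} {F : ι → ℂ → ℂ} {r : ℝ} (hr : 0 < r) (s : Finset ι)
    (hF : ∀ i ∈ s, DifferentiableOn ℂ (F i) (ball 0 r)) (k : ℕ) :
    tc (fun t => ∑ i ∈ s, F i t) k = ∑ i ∈ s, tc (F i) k := by
  have h := tc_unique (a := fun k => ∑ i ∈ s, tc (F i) k) (F := fun t => ∑ i ∈ s, F i t) hr
    (DifferentiableOn.fun_sum hF) ?_
  · rw [← h]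
  · filter_upwards [ball_mem_nhds (0 : ℂ) hr] with x hx
    have h1 := hasSum_sum (s := s) (fun i hi => hasSum_tc (hF i hi) hx)
    refine h1.congr_fun fun k => ?_
    rw [Finset.sum_mul]

/-- shift -/
theorem tc_pow_mul {F : ℂ → ℂ} {r : ℝ} (hr : 0 < r) (hF : DifferentiableOn ℂ F (ball 0 r))
    (a k : ℕ) : tc (fun t => t ^ a * F t) k = if a ≤ k then tc F (k - a) else 0 := by
  have h := tc_unique (a := fun k => if a ≤ k then tc F (k - a) else 0)
    (F := fun t => t ^ a * F t) hr (by fun_prop) ?_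
  · rw [← h]
  · filter_upwards [ball_mem_nhds (0 : ℂ) hr] with x hx
    have h1 := (hasSum_tc hF hx).mul_left (x ^ a)
    rw [← hasSum_nat_add_iff' a]
    have h2 : ∑ i ∈ Finset.range a, (if a ≤ i then tc F (i - a) else 0) * x ^ i = 0 := by
      apply Finset.sum_eq_zero
      intro i hi
      rw [if_neg (by have := Finset.mem_range.1 hi; omega), zero_mul]
    rw [h2, sub_zero]
    refine h1.congr_fun fun k => ?_
    rw [if_pos (by omega), Nat.add_sub_cancel, pow_add]
    ring

/-! ### Faber polynomials -/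

/-- `t ^ m` times the Faber polynomial of degree `m` at `t⁻¹ g t` -/
noncomputable def HF (g : ℂ → ℂ) (m : ℕ) : ℂ → ℂ := fun t =>
  g t ^ m - ∑ i : Fin m, tc (fun t => g t ^ m) (m - (i : ℕ)) * (t ^ (m - (i : ℕ)) * HF g i t)
termination_by m
decreasing_by exact i.2

/-- the Faber polynomial of degree `m` -/
noncomputable def FB (g : ℂ → ℂ) (m : ℕ) : ℂ[X] :=
  X ^ m - ∑ i : Fin m, C (tc (fun t => g t ^ m) (m - (i : ℕ))) * FB g i
termination_by m
decreasing_by exact i.2

theorem HF_eq (g : ℂ → ℂ) (m : ℕ) : HF g m = fun t => g t ^ m -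
    ∑ i : Fin m, tc (fun t => g t ^ m) (m - (i : ℕ)) * (t ^ (m - (i : ℕ)) * HF g i t) := by
  funext t
  rw [HF]

variable {g : ℂ → ℂ} {s : ℝ}

theorem HF_diff (hg : DifferentiableOn ℂ g (ball 0 s)) (m : ℕ) :
    DifferentiableOn ℂ (HF g m) (ball 0 s) := by
  induction m using Nat.strong_induction_on with
  | _ m ih =>
    rw [HF_eq]
    apply (hg.pow m).sub
    apply DifferentiableOn.fun_sum
    intro i _
    have := ih i i.2
    fun_prop

theorem tc_HF (hs : 0 < s) (hg : DifferentiableOn ℂ g (ball 0 s)) (m k : ℕ) :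
    tc (HF g m) k = tc (fun t => g t ^ m) k - ∑ i : Fin m, tc (fun t => g t ^ m) (m - (i : ℕ)) *
      (if m - (i : ℕ) ≤ k then tc (HF g i) (k - (m - (i : ℕ))) else 0) := by
  conv_lhs => rw [HF_eq]
  have hd : ∀ i : Fin m, DifferentiableOn ℂ (fun t : ℂ => t ^ (m - (i : ℕ)) * HF g i t)
      (ball 0 s) := fun i => by
    have := HF_diff hg i
    fun_prop
  have hgm : DifferentiableOn ℂ (fun t => g t ^ m) (ball 0 s) := by fun_prop
  rw [tc_sub hs hgm (DifferentiableOn.fun_sum fun i _ => (hd i).const_mul _),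
    tc_sum hs _ (fun i _ => (hd i).const_mul _)]
  congr 1
  apply Finset.sum_congr rfl
  intro i _
  rw [tc_const_mul hs (hd i), tc_pow_mul hs (HF_diff hg i)]

/-- the polynomial part of the Faber polynomial in the exterior coordinate -/
theorem tc_HF_le (hs : 0 < s) (hg : DifferentiableOn ℂ g (ball 0 s)) (h0 : g 0 = 1) (m : ℕ) :
    ∀ k ≤ m, tc (HF g m) k = if k = 0 then 1 else 0 := by
  induction m using Nat.strong_induction_on with
  | _ m ih =>
    intro k hk
    rw [tc_HF hs hg]
    rcases Nat.eq_zero_or_pos k with hk0 | hk0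
    · subst hk0
      rw [if_pos rfl, tc_zero, h0, one_pow, Finset.sum_eq_zero, sub_zero]
      intro i _
      have := i.2
      rw [if_neg (by omega), mul_zero]
    · rw [if_neg (by omega)]
      have hi : m - k < m := by omega
      rw [Finset.sum_eq_single (⟨m - k, hi⟩ : Fin m)]
      · simp only
        rw [if_pos (by omega), ih (m - k) hi _ (by omega), if_pos (by omega), mul_one]
        have : m - (m - k) = k := by omega
        rw [this, sub_self]
      · intro i _ hne
        split_ifs with h1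
        · rw [ih i i.2 _ (by omega), if_neg, mul_zero]
          intro h2
          apply hne
          apply Fin.ext
          simp only
          have := i.2
          omega
        · rw [mul_zero]
      · intro h
        exact absurd (Finset.mem_univ _) h

theorem eval_FB (m : ℕ) {t : ℂ} (ht : t ≠ 0) :
    HF g m t = t ^ m * (FB g m).eval (t⁻¹ * g t) := by
  induction m using Nat.strong_induction_on with
  | _ m ih =>
    rw [HF, FB, eval_sub, eval_pow, eval_X, eval_finsetSum, mul_sub, mul_pow, ← mul_assoc,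
      ← mul_pow, mul_inv_cancel₀ ht, one_pow, one_mul, Finset.mul_sum]
    congr 1
    apply Finset.sum_congr rfl
    intro i _
    rw [ih i i.2, eval_mul, eval_C]
    have h1 : t ^ m = t ^ (m - (i : ℕ)) * t ^ (i : ℕ) := by
      rw [← pow_add]
      congr 1
      have := i.2
      omega
    rw [h1]
    ring

/-- the Grunsky coefficients -/
noncomputable def gr (g : ℂ → ℂ) (m j : ℕ) : ℂ := tc (HF g m) (m + j)

theorem HF_zero : HF g 0 = fun _ => 1 := by
  rw [HF_eq]
  funext t
  simp

theorem gr_one (hs : 0 < s) (hg : DifferentiableOn ℂ g (ball 0 s)) {j : ℕ} (hj : 1 ≤ j) :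
    gr g 1 j = tc g (j + 1) := by
  unfold gr
  rw [tc_HF hs hg]
  simp only [pow_one]
  rw [Fin.sum_univ_one]
  simp only [Fin.val_zero, Nat.sub_zero]
  rw [if_pos (by omega), HF_zero]
  have h1 : tc (fun _ : ℂ => (1 : ℂ)) (1 + j - 1) = 0 := by
    unfold tc
    rw [iteratedDeriv_const, if_neg (by omega), mul_zero]
  rw [h1, mul_zero, sub_zero, add_comm]

/-- the derivative of the exterior map, up to a power of `t` -/
noncomputable def RR (g : ℂ → ℂ) : ℂ → ℂ := fun t => t ^ 1 * deriv g t - g t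

theorem RR_diff (hg : DifferentiableOn ℂ g (ball 0 s)) : DifferentiableOn ℂ (RR g) (ball 0 s) := by
  have := hg.deriv isOpen_ball
  unfold RR
  fun_prop

theorem tc_RR (hs : 0 < s) (hg : DifferentiableOn ℂ g (ball 0 s)) (k : ℕ) :
    tc (RR g) k = ((k : ℂ) - 1) * tc g k := by
  have hd := hg.deriv isOpen_ball
  unfold RR
  rw [tc_sub hs (by fun_prop) hg, tc_pow_mul hs hd]
  rcases Nat.eq_zero_or_pos k with h | h
  · subst h
    rw [if_neg (by omega)]
    push_cast
    ring
  · obtain ⟨j, rfl⟩ : ∃ j, k = j + 1 := ⟨k - 1, by omega⟩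
    rw [if_pos (by omega), tc_deriv, Nat.add_sub_cancel]
    push_cast
    ring

theorem tc_pow_RR (hs : 0 < s) (hg : DifferentiableOn ℂ g (ball 0 s)) (i : ℕ) :
    tc (fun t => g t ^ i * RR g t) (i + 1) = 0 := by
  have hd := hg.deriv isOpen_ball
  have hdp : DifferentiableOn ℂ (deriv (fun t => g t ^ (i + 1))) (ball 0 s) :=
    (hg.pow (i + 1)).deriv isOpen_ball
  have h1 : tc (fun t => t ^ 1 * deriv (fun t => g t ^ (i + 1)) t - ((i : ℂ) + 1) * g t ^ (i + 1))
      (i + 1) = 0 := by
    rw [tc_sub hs (by fun_prop) (by fun_prop), tc_pow_mul hs hdp, if_pos (by omega),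
      Nat.add_sub_cancel, tc_deriv, tc_const_mul hs (by fun_prop), sub_self]
  have h2 : tc (fun t => ((i : ℂ) + 1) * (g t ^ i * RR g t)) (i + 1) = 0 := by
    rw [← h1]
    have hev : (fun t => ((i : ℂ) + 1) * (g t ^ i * RR g t)) =ᶠ[𝓝 0]
        fun t => t ^ 1 * deriv (fun t => g t ^ (i + 1)) t - ((i : ℂ) + 1) * g t ^ (i + 1) := by
      filter_upwards [ball_mem_nhds (0 : ℂ) hs] with t ht
      have h3 : HasDerivAt g (deriv g t) t := (hg.differentiableAt (isOpen_ball.mem_nhds ht)).hasDerivAt
      have h4 := (h3.pow (i + 1)).deriv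
      have h5 : deriv (fun t => g t ^ (i + 1)) t = ((i : ℂ) + 1) * g t ^ i * deriv g t := by
        have h6 : (g ^ (i + 1) : ℂ → ℂ) = fun t => g t ^ (i + 1) := rfl
        rw [h6] at h4
        rw [h4]
        push_cast
        rfl
      rw [h5]
      unfold RR
      ring
    unfold tc
    rw [hev.iteratedDeriv_eq]
  rw [tc_const_mul hs (by have := RR_diff hg; fun_prop)] at h2
  rcases mul_eq_zero.1 h2 with h | h
  · exact absurd h (Nat.cast_add_one_ne_zero i)
  · exact h

theorem tc_HF_RR (hs : 0 < s) (hg : DifferentiableOn ℂ g (ball 0 s)) (m : ℕ) :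
    tc (fun t => HF g m t * RR g t) (m + 1) = 0 := by
  have hR := RR_diff hg
  induction m using Nat.strong_induction_on with
  | _ m ih =>
    have h1 : (fun t => HF g m t * RR g t) = fun t => g t ^ m * RR g t -
        ∑ i : Fin m, tc (fun t => g t ^ m) (m - (i : ℕ)) *
          (t ^ (m - (i : ℕ)) * (HF g i t * RR g t)) := by
      funext t
      rw [HF, sub_mul, Finset.sum_mul]
      congr 1
      apply Finset.sum_congr rfl
      intro i _
      ring
    have hd : ∀ i : Fin m, DifferentiableOn ℂ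
        (fun t : ℂ => t ^ (m - (i : ℕ)) * (HF g i t * RR g t)) (ball 0 s) := fun i => by
      have := HF_diff hg i
      fun_prop
    rw [h1, tc_sub hs (by fun_prop) (DifferentiableOn.fun_sum fun i _ => (hd i).const_mul _),
      tc_sum hs _ (fun i _ => (hd i).const_mul _), tc_pow_RR hs hg, zero_sub, neg_eq_zero]
    apply Finset.sum_eq_zero
    intro i _
    have hi := i.2
    rw [tc_const_mul hs (hd i), tc_pow_mul hs (by have := HF_diff hg i; fun_prop),
      if_pos (by omega)]
    have h2 : m + 1 - (m - (i : ℕ)) = i + 1 := by omega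
    rw [h2, ih i hi, mul_zero]

/-- symmetry: the first row of the Grunsky matrix -/
theorem gr_row (hs : 0 < s) (hg : DifferentiableOn ℂ g (ball 0 s)) (h0 : g 0 = 1) (m : ℕ) :
    gr g m 1 = m * tc g (m + 1) := by
  have h1 := tc_HF_RR hs hg m
  rw [tc_mul hs (HF_diff hg m) (RR_diff hg)] at h1
  rw [Finset.Nat.sum_antidiagonal_eq_sum_range_succ (fun p q => tc (HF g m) p * tc (RR g) q)
    (m + 1), Finset.sum_range_succ, Finset.sum_range_succ'] at h1
  have h2 : ∑ k ∈ Finset.range m, tc (HF g m) (k + 1) * tc (RR g) (m + 1 - (k + 1)) = 0 := by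
    apply Finset.sum_eq_zero
    intro k hk
    have := Finset.mem_range.1 hk
    rw [tc_HF_le hs hg h0 m (k + 1) (by omega), if_neg (by omega), zero_mul]
  rw [h2, tc_HF_le hs hg h0 m 0 (by omega), if_pos rfl, Nat.sub_self, Nat.sub_zero,
    tc_RR hs hg, tc_RR hs hg, tc_zero, h0] at h1
  unfold gr
  push_cast at h1
  linear_combination -h1

end Pool.Agent.K4H45.LL
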