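import Mathlib
import Pool.Agent.K4H45.LL.Fab
import Pool.Agent.W177.BM.PK1
import Pool.Agent.H713R3.ZA.TGAIN

/-! # The conjugacy at infinity is a Lipschitz function of the coefficients -/

set_option autoImplicit false

open Topology Filter Metric Set Polynomial MeasureTheory
open Pool.Agent.H713R3.ZA Pool.Agent.H713R2 Pool.Agent.H713R2.AR

namespace Pool.Agent.K4H45.LL

/-- expansion far away -/
theorem low {n : ℕ} (hn : 1 ≤ n) {a : ℂ} {A C₁ : ℝ} (hC₁ : 0 ≤ C₁) {p : ℂ[X]}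
    (hp : p.natDegree ≤ n + 1) (hpa : p.coeff (n + 1) = a) (hpA : ∀ j, ‖p.coeff j‖ ≤ A)
    {w u v : ℂ} (hw1 : 1 ≤ ‖w‖) (hwC : C₁ ≤ ‖w‖) (hu : ‖u - w‖ ≤ C₁) (hv : ‖v - w‖ ≤ C₁)
    (hw : 2 + 2 ^ (n - 1) * (((n : ℝ) + 1) * n * (‖a‖ * C₁ + A)) ≤ ‖a‖ * (n + 1) * ‖w‖) :
    2 * ‖w‖ ^ (n - 1) * ‖u - v‖ ≤ ‖p.eval u - p.eval v‖ := by
  have hA : 0 ≤ A := (norm_nonneg _).trans (hpA 0)
  have hw0 : 0 < ‖w‖ := by linarith
  set F : ℂ → ℂ := fun z => p.eval z - a * (n + 1) * w ^ n * z with hF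
  set F' : ℂ → ℂ := fun z => (derivative p).eval z - a * (n + 1) * w ^ n with hF'
  have hd : ∀ z, HasDerivAt F (F' z) z := by
    intro z
    have h1 := p.hasDerivAt z
    have h2 := (hasDerivAt_id z).const_mul (a * (n + 1) * w ^ n)
    rw [mul_one] at h2
    exact h1.sub h2
  set M : ℝ := 2 * ‖w‖ with hM
  have hM1 : 1 ≤ M := by linarith
  have hM0 : 0 ≤ M := by linarith
  set Kd : ℝ := M ^ (n - 1) * (((n : ℝ) + 1) * n * (‖a‖ * C₁ + A)) with hKd
  have hbd : ∀ z ∈ closedBall w C₁, ‖F' z‖ ≤ Kd := by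
    intro z hz
    rw [mem_closedBall, dist_eq_norm] at hz
    have hzM : ‖z‖ ≤ M := by
      have := norm_le_norm_add_norm_sub' z w
      linarith
    have e1 : (derivative p).eval z = a * (n + 1) * z ^ n +
        ∑ j ∈ Finset.range (n + 1), p.coeff j * j * z ^ (j - 1) := by
      rw [derivative_eval, sum_over_range' _ _ (n + 2) (by omega), Finset.sum_range_succ, hpa]
      · rw [Nat.add_sub_cancel]
        push_cast
        ring
      · intro j
        simp
    have e2 : F' z = a * (n + 1) * (z ^ n - w ^ n) +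
        ∑ j ∈ Finset.range (n + 1), p.coeff j * j * z ^ (j - 1) := by
      rw [hF']
      simp only
      rw [e1]
      ring
    have e3 : ‖z ^ n - w ^ n‖ ≤ n * M ^ (n - 1) * C₁ :=
      (GAIN.pow_sub_le hM0 hzM (by linarith) n).trans
        (mul_le_mul_of_nonneg_left hz (by positivity))
    have e4 : ‖∑ j ∈ Finset.range (n + 1), p.coeff j * j * z ^ (j - 1)‖ ≤
        ((n : ℝ) + 1) * (A * n * M ^ (n - 1)) := by
      refine (norm_sum_le _ _).trans ?_
      have h1 : ∀ j ∈ Finset.range (n + 1), ‖p.coeff j * j * z ^ (j - 1)‖ ≤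
          A * n * M ^ (n - 1) := by
        intro j hj
        have hj' := Finset.mem_range.1 hj
        rw [norm_mul, norm_mul, norm_pow, Complex.norm_natCast]
        have h2 : ‖z‖ ^ (j - 1) ≤ M ^ (n - 1) :=
          (pow_le_pow_left₀ (norm_nonneg _) hzM _).trans (pow_le_pow_right₀ hM1 (by omega))
        have h3 : (j : ℝ) ≤ n := by exact_mod_cast (by omega : j ≤ n)
        exact mul_le_mul (mul_le_mul (hpA j) h3 (Nat.cast_nonneg _) hA) h2 (by positivity)
          (by positivity)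
      refine (Finset.sum_le_sum h1).trans ?_
      rw [Finset.sum_const, Finset.card_range, nsmul_eq_mul]
      push_cast
      exact le_rfl
    rw [e2]
    refine (norm_add_le _ _).trans ?_
    rw [norm_mul, norm_mul]
    have e5 : ‖((n : ℂ) + 1)‖ = n + 1 := by
      have : ((n : ℂ) + 1) = ((n + 1 : ℕ) : ℂ) := by push_cast; rfl
      rw [this, Complex.norm_natCast]
      push_cast
      rfl
    rw [e5]
    have e6 := mul_le_mul_of_nonneg_left e3 (by positivity : 0 ≤ ‖a‖ * ((n : ℝ) + 1))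
    rw [hKd]
    nlinarith
  have hmv : ‖F u - F v‖ ≤ Kd * ‖u - v‖ :=
    Convex.norm_image_sub_le_of_norm_hasDerivWithin_le (s := closedBall w C₁)
      (fun z _ => (hd z).hasDerivWithinAt) hbd (convex_closedBall w C₁)
      (by rw [mem_closedBall, dist_eq_norm]; exact hv)
      (by rw [mem_closedBall, dist_eq_norm]; exact hu)
  have e7 : p.eval u - p.eval v = a * (n + 1) * w ^ n * (u - v) + (F u - F v) := by
    rw [hF]
    ring
  have e5 : ‖((n : ℂ) + 1)‖ = n + 1 := by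
    have : ((n : ℂ) + 1) = ((n + 1 : ℕ) : ℂ) := by push_cast; rfl
    rw [this, Complex.norm_natCast]
    push_cast
    rfl
  have e8 : ‖a‖ * (n + 1) * ‖w‖ ^ n * ‖u - v‖ - Kd * ‖u - v‖ ≤ ‖p.eval u - p.eval v‖ := by
    rw [e7]
    have h1 := norm_sub_norm_le (a * (n + 1) * w ^ n * (u - v)) (-(F u - F v))
    rw [sub_neg_eq_add, norm_neg, norm_mul, norm_mul, norm_mul, norm_pow, e5] at h1
    linarith
  refine le_trans ?_ e8
  have e9 : ‖w‖ ^ n = ‖w‖ ^ (n - 1) * ‖w‖ := by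
    rw [← pow_succ]
    congr 1
    omega
  have e10 : Kd = ‖w‖ ^ (n - 1) * (2 ^ (n - 1) * (((n : ℝ) + 1) * n * (‖a‖ * C₁ + A))) := by
    rw [hKd, hM, mul_pow]
    ring
  rw [e10, e9]
  have e11 := mul_le_mul_of_nonneg_left hw
    (by positivity : 0 ≤ ‖w‖ ^ (n - 1) * ‖u - v‖)
  nlinarith

/-- the difference of the polynomials -/
theorem diff_eval {n : ℕ} (hn : 1 ≤ n) {D M : ℝ} {p q : ℂ[X]}
    (hp : p.natDegree ≤ n + 1) (hq : q.natDegree ≤ n + 1) (h1 : p.coeff (n + 1) = q.coeff (n + 1))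
    (h2 : p.coeff n = q.coeff n) (hD : ∀ j, ‖p.coeff j - q.coeff j‖ ≤ D) {v : ℂ} (hM : 1 ≤ M)
    (hv : ‖v‖ ≤ M) : ‖p.eval v - q.eval v‖ ≤ n * M ^ (n - 1) * D := by
  have hD0 : 0 ≤ D := (norm_nonneg _).trans (hD 0)
  rw [eval_eq_sum_range' (Nat.lt_succ_of_le hp), eval_eq_sum_range' (Nat.lt_succ_of_le hq),
    ← Finset.sum_sub_distrib, Finset.sum_range_succ, Finset.sum_range_succ, h1, h2, sub_self,
    sub_self, add_zero, add_zero]
  refine (norm_sum_le _ _).trans ?_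
  have h3 : ∀ j ∈ Finset.range n, ‖p.coeff j * v ^ j - q.coeff j * v ^ j‖ ≤ D * M ^ (n - 1) := by
    intro j hj
    have hj' := Finset.mem_range.1 hj
    rw [← sub_mul, norm_mul, norm_pow]
    have h2 : ‖v‖ ^ j ≤ M ^ (n - 1) :=
      (pow_le_pow_left₀ (norm_nonneg _) hv _).trans (pow_le_pow_right₀ hM (by omega))
    exact mul_le_mul (hD j) h2 (by positivity) hD0
  refine (Finset.sum_le_sum h3).trans ?_
  rw [Finset.sum_const, Finset.card_range, nsmul_eq_mul]
  exact le_of_eq (by ring)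

section
variable {a : ℂ} {n : ℕ} {B Rb C₁ R₁ R₃ : ℝ} {ψ φ : PE n × ℂ → ℂ}

/-- Lipschitz dependence of the conjugacy at infinity -/
theorem lip (ha : a ≠ 0) (hn : 1 ≤ n) (hb : BO a n B Rb C₁ R₁ R₃ ψ φ) {A : ℝ}
    (hA : ∀ x : PE n, ‖x‖ ≤ B → ∀ j, ‖(fam a n x).coeff j‖ ≤ A) : ∃ R' : ℝ, R₁ < R' ∧ 1 ≤ R' ∧
    ∀ x ∈ ball (0 : PE n) B, ∀ y ∈ ball (0 : PE n) B, (fam a n x).coeff n = (fam a n y).coeff n →
    ∀ D : ℝ, (∀ j, ‖(fam a n x).coeff j - (fam a n y).coeff j‖ ≤ D) → ∀ w : ℂ, R' < ‖w‖ →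
      ‖ψ (x, w) - ψ (y, w)‖ ≤ n * 2 ^ (n - 1) * D := by
  have k1 := hb.hR; have k2 := hb.hC; have k3 := hb.hR₁; have k4 := hb.hR₃
  have ha0 : 0 < ‖a‖ := norm_pos_iff.2 ha
  have hn0 : (0 : ℝ) < n + 1 := by positivity
  set Q : ℝ := (2 + 2 ^ (n - 1) * (((n : ℝ) + 1) * n * (‖a‖ * C₁ + A))) / (‖a‖ * (n + 1)) with hQ
  refine ⟨max (R₁ + 1) Q, lt_of_lt_of_le (by linarith) (le_max_left _ _),
    le_trans (by linarith) (le_max_left _ _), ?_⟩
  intro x hx y hy hxy D hD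
  have hD0 : 0 ≤ D := (norm_nonneg _).trans (hD 0)
  set E : ℝ := n * 2 ^ (n - 1) * D with hE
  have hE0 : 0 ≤ E := by positivity
  have key : ∀ m : ℕ, ∀ w : ℂ, max (R₁ + 1) Q < ‖w‖ →
      ‖ψ (x, w) - ψ (y, w)‖ ≤ (1 / 2) ^ m * (2 * C₁) + E := by
    intro m
    induction m with
    | zero =>
      intro w hw
      have hw1 : R₁ < ‖w‖ := by have := le_max_left (R₁ + 1) Q; linarith
      have e1 := hb.ψc x hx w hw1
      have e2 := hb.ψc y hy w hw1
      have e3 : ψ (x, w) - ψ (y, w) = (ψ (x, w) - w) - (ψ (y, w) - w) := by ring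
      rw [e3]
      have := norm_sub_le (ψ (x, w) - w) (ψ (y, w) - w)
      rw [pow_zero, one_mul]
      linarith
    | succ m ih =>
      intro w hw
      have hw1 : R₁ + 1 < ‖w‖ := (le_max_left _ _).trans_lt hw
      have hw2 : Q < ‖w‖ := (le_max_right _ _).trans_lt hw
      have hwR : R₁ < ‖w‖ := by linarith
      have e1 := hb.ψc x hx w hwR
      have e2 := hb.ψc y hy w hwR
      have hpw := hb.pw w hwR
      have h1 := ih (a * w ^ (n + 1)) (by linarith [norm_nonneg w])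
      rw [← hb.fe x hx w hwR, ← hb.fe y hy w hwR] at h1
      set u := ψ (x, w) with hu
      set v := ψ (y, w) with hv
      have hwC : C₁ ≤ ‖w‖ := by linarith
      have h2 := low hn k2.le (natDegree_fam_le a n x) (coeff_fam_top a n x)
        (hA x (mem_ball_zero_iff.mp hx).le) (w := w) (u := u) (v := v) (by linarith) hwC e1 e2 (by
          rw [hQ, div_lt_iff₀ (by positivity)] at hw2
          linarith)
      have hvn : ‖v‖ ≤ 2 * ‖w‖ := by
        have := norm_le_norm_add_norm_sub' v w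
        linarith
      have h3 := diff_eval hn (natDegree_fam_le a n x) (natDegree_fam_le a n y)
        (by rw [coeff_fam_top, coeff_fam_top]) hxy hD (v := v) (M := 2 * ‖w‖) (by linarith) hvn
      have h4 : ‖(fam a n x).eval u - (fam a n x).eval v‖ ≤
          ‖fx a n x u - fx a n y v‖ + ‖(fam a n x).eval v - (fam a n y).eval v‖ := by
        have e3 : (fam a n x).eval u - (fam a n x).eval v =
          (fx a n x u - fx a n y v) - ((fam a n x).eval v - (fam a n y).eval v) := by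
            unfold fx; ring
        rw [e3]
        exact norm_sub_le _ _
      have hwp : 1 ≤ ‖w‖ ^ (n - 1) := one_le_pow₀ (by linarith)
      have h5 : 2 * ‖w‖ ^ (n - 1) * ‖u - v‖ ≤ ‖w‖ ^ (n - 1) *
          (((1 / 2) ^ m * (2 * C₁) + E) + E) := by
        have h6 : n * (2 * ‖w‖) ^ (n - 1) * D = ‖w‖ ^ (n - 1) * E := by
          rw [hE, mul_pow]; ring
        rw [h6] at h3
        have h7 : (1 / 2 : ℝ) ^ m * (2 * C₁) + E ≤
            ‖w‖ ^ (n - 1) * ((1 / 2) ^ m * (2 * C₁) + E) :=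
          le_mul_of_one_le_left (by positivity) hwp
        have h8 : ‖w‖ ^ (n - 1) * (((1 / 2) ^ m * (2 * C₁) + E) + E) =
            ‖w‖ ^ (n - 1) * ((1 / 2) ^ m * (2 * C₁) + E) + ‖w‖ ^ (n - 1) * E := by ring
        rw [h8]
        linarith
      have h9 : 2 * ‖u - v‖ ≤ ((1 / 2) ^ m * (2 * C₁) + E) + E := by
        have hwp0 : 0 < ‖w‖ ^ (n - 1) := by linarith
        have h10 : ‖w‖ ^ (n - 1) * (2 * ‖u - v‖) ≤ ‖w‖ ^ (n - 1) *
          (((1 / 2) ^ m * (2 * C₁) + E) + E) := by linarith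
        exact le_of_mul_le_mul_left h10 hwp0
      rw [pow_succ]
      linarith
  intro w hw
  have h1 : Tendsto (fun m : ℕ => (1 / 2 : ℝ) ^ m * (2 * C₁) + E) atTop (𝓝 (0 * (2 * C₁) + E)) :=
    ((tendsto_pow_atTop_nhds_zero_of_lt_one (by norm_num) (by norm_num)).mul_const _).add_const _
  rw [zero_mul, zero_add] at h1
  exact ge_of_tendsto' h1 fun m => key m w hw

end

end Pool.Agent.K4H45.LL
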