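import Mathlib
import Pool.Agent.K4H45.LL.Lip
import Pool.Agent.W820.BM.Stm

/-! # Finitely many coefficients at infinity control the polynomial -/

set_option autoImplicit false

open Topology Filter Metric Set Polynomial MeasureTheory
open Pool.Agent.H713R3.ZA Pool.Agent.H713R2 Pool.Agent.H713R2.AR

namespace Pool.Agent.K4H45.LL

/-- Cauchy's estimate for the difference of two exterior maps -/
theorem tc_diff_le {F FT : ℂ → ℂ} {s r0 E : ℝ} (hr0 : 0 < r0) (hlt : r0 < s)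
    (hF : DifferentiableOn ℂ F (ball 0 s)) (hFT : DifferentiableOn ℂ FT (ball 0 s))
    (h : ∀ t : ℂ, ‖t‖ = r0 → ‖F t - FT t‖ ≤ r0 * E) (k : ℕ) :
    ‖tc F (k + 1) - tc FT (k + 1)‖ ≤ E / r0 ^ k := by
  have hs : 0 < s := hr0.trans hlt
  rw [← tc_sub hs hF hFT]
  have hd : DiffContOnCl ℂ (fun t => F t - FT t) (ball 0 r0) := by
    apply DifferentiableOn.diffContOnCl
    rw [closure_ball (0 : ℂ) hr0.ne']
    exact (hF.sub hFT).mono (closedBall_subset_ball hlt)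
  have h1 := Complex.norm_iteratedDeriv_le_of_forall_mem_sphere_norm_le (k + 1) hr0 hd
    (C := r0 * E) (fun z hz => h z (mem_sphere_zero_iff_norm.1 hz))
  unfold tc
  rw [norm_mul, norm_inv, Complex.norm_natCast]
  have hf : (0 : ℝ) < ((k + 1).factorial : ℝ) := by exact_mod_cast Nat.factorial_pos _
  rw [inv_mul_le_iff₀ hf]
  refine h1.trans (le_of_eq ?_)
  rw [pow_succ]
  field_simp

/-- the tail of the difference near infinity -/
theorem tailL {F FT : ℂ → ℂ} {s R'' δ E : ℝ} {m : ℕ} (hR'' : 0 < R'')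
    (hR''s : R''⁻¹ < s) (hF : DifferentiableOn ℂ F (ball 0 s))
    (hFT : DifferentiableOn ℂ FT (ball 0 s)) (hF0 : F 0 = 1) (hFT0 : FT 0 = 1) (hδ : 0 ≤ δ)
    (hE : 0 ≤ E) (h1 : ∀ k < m, ‖tc F (k + 2) - tc FT (k + 2)‖ ≤ δ)
    (h2 : ∀ k, ‖tc F (k + 2) - tc FT (k + 2)‖ ≤ E * R'' ^ (k + 1)) {w : ℂ}
    (hw : 2 * R'' ≤ ‖w‖) (hw2 : 2 ≤ ‖w‖) :
    ‖w * F w⁻¹ - w * FT w⁻¹ - (tc F 1 - tc FT 1)‖ ≤ δ + E * (2 * R'' / ‖w‖) ^ (m + 1) := by
  have hw0 : 0 < ‖w‖ := by linarith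
  have hwne : w ≠ 0 := norm_pos_iff.1 hw0
  have hwb : w⁻¹ ∈ ball (0 : ℂ) s := by
    rw [mem_ball_zero_iff, norm_inv]
    have : ‖w‖⁻¹ ≤ R''⁻¹ := inv_anti₀ hR'' (by linarith)
    linarith
  have h5 := (hasSum_tc hF hwb).sub (hasSum_tc hFT hwb)
  have h6 := (hasSum_nat_add_iff' 2).2 h5
  rw [Finset.sum_range_succ, Finset.sum_range_one, tc_zero, tc_zero, hF0, hFT0] at h6
  have h7 := h6.mul_left w
  have e2 : w * (F w⁻¹ - FT w⁻¹ - (1 * w⁻¹ ^ 0 - 1 * w⁻¹ ^ 0 +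
      (tc F 1 * w⁻¹ ^ 1 - tc FT 1 * w⁻¹ ^ 1))) =
      w * F w⁻¹ - w * FT w⁻¹ - (tc F 1 - tc FT 1) := by
    field_simp
    ring
  rw [e2] at h7
  rw [← h7.tsum_eq]
  set q : ℝ := R'' / ‖w‖ with hq
  have hq0 : 0 < q := by positivity
  have hq1 : q ≤ 1 / 2 := by
    rw [hq, div_le_iff₀ hw0]
    linarith
  have hQ : 2 * R'' / ‖w‖ = 2 * q := by rw [hq]; ring
  rw [hQ]
  have hle : ∀ k : ℕ, ‖w * (tc F (k + 2) * w⁻¹ ^ (k + 2) - tc FT (k + 2) * w⁻¹ ^ (k + 2))‖ ≤
      (δ + E * (2 * q) ^ (m + 1)) * ((1 / 2 : ℝ) / 2 ^ k) := by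
    intro k
    have e3 : w * (tc F (k + 2) * w⁻¹ ^ (k + 2) - tc FT (k + 2) * w⁻¹ ^ (k + 2)) =
        (tc F (k + 2) - tc FT (k + 2)) * w⁻¹ ^ (k + 1) := by
      rw [pow_succ w⁻¹ (k + 1)]
      field_simp
    have h13 : (1 / 2 : ℝ) / 2 ^ k = (1 / 2 : ℝ) ^ (k + 1) := by
      rw [pow_succ, one_div_pow]
      ring
    rw [e3, norm_mul, norm_pow, norm_inv, h13]
    have hEq : 0 ≤ E * (2 * q) ^ (m + 1) := by positivity
    rcases lt_or_ge k m with hk | hk
    · have h8 : ‖w‖⁻¹ ^ (k + 1) ≤ (1 / 2) ^ (k + 1) := by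
        apply pow_le_pow_left₀ (by positivity)
        rw [one_div]
        exact inv_anti₀ (by norm_num) hw2
      calc ‖tc F (k + 2) - tc FT (k + 2)‖ * ‖w‖⁻¹ ^ (k + 1) ≤ δ * (1 / 2) ^ (k + 1) :=
            mul_le_mul (h1 k hk) h8 (by positivity) hδ
        _ ≤ _ := mul_le_mul_of_nonneg_right (by linarith) (by positivity)
    · have h9 : ‖tc F (k + 2) - tc FT (k + 2)‖ * ‖w‖⁻¹ ^ (k + 1) ≤ E * q ^ (k + 1) := by
        calc ‖tc F (k + 2) - tc FT (k + 2)‖ * ‖w‖⁻¹ ^ (k + 1) ≤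
              (E * R'' ^ (k + 1)) * ‖w‖⁻¹ ^ (k + 1) :=
              mul_le_mul_of_nonneg_right (h2 k) (by positivity)
          _ = E * q ^ (k + 1) := by
              rw [hq, div_eq_mul_inv, mul_pow]
              ring
      refine h9.trans ?_
      have h10 : q ^ (k + 1) ≤ (2 * q) ^ (m + 1) * (1 / 2) ^ (k + 1) := by
        obtain ⟨i, rfl⟩ : ∃ i, k = m + i := ⟨k - m, by omega⟩
        have e4 : (2 * q) ^ (m + 1) * (1 / 2) ^ (m + i + 1) = q ^ (m + 1) * (1 / 2) ^ i := by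
          rw [show m + i + 1 = (m + 1) + i by ring, pow_add (1 / 2 : ℝ), ← mul_assoc, ← mul_pow]
          congr 2
          ring
        have e5 : q ^ (m + i + 1) = q ^ (m + 1) * q ^ i := by
          rw [← pow_add]
          congr 1
          ring
        rw [e4, e5]
        exact mul_le_mul_of_nonneg_left (pow_le_pow_left₀ hq0.le hq1 i) (by positivity)
      calc E * q ^ (k + 1) ≤ E * ((2 * q) ^ (m + 1) * (1 / 2) ^ (k + 1)) :=
            mul_le_mul_of_nonneg_left h10 hE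
        _ = (E * (2 * q) ^ (m + 1)) * (1 / 2) ^ (k + 1) := by ring
        _ ≤ _ := mul_le_mul_of_nonneg_right (by linarith) (by positivity)
  have hgeo : HasSum (fun k : ℕ => (δ + E * (2 * q) ^ (m + 1)) * ((1 / 2 : ℝ) / 2 ^ k))
      ((δ + E * (2 * q) ^ (m + 1)) * 1) := by
    apply HasSum.mul_left
    exact hasSum_geometric_two' 1
  have := tsum_of_norm_bounded hgeo hle
  rwa [mul_one] at this

section
variable {a : ℂ} {n : ℕ} {B Rb C₁ R₁ R₃ : ℝ} {ψ φ : PE n × ℂ → ℂ}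

/-- Closeness of the first `2 n` coefficients at infinity implies closeness of the polynomials. -/
theorem closeL (ha : a ≠ 0) (hn : 1 ≤ n) (hb : BO a n B Rb C₁ R₁ R₃ ψ φ) {A : ℝ}
    (hA : ∀ x : PE n, ‖x‖ ≤ B → ∀ j, ‖(fam a n x).coeff j‖ ≤ A) {ρM : ℝ} (hρM : 0 < ρM) :
    ∃ C : ℝ, 0 < C ∧ ∀ (N : ℕ) (R R₄ s : ℝ) (G : PE n × ℂ → ℂ),
      W820.BM.EX a n N B R C₁ R₁ R₄ s ψ G → ρM⁻¹ < s → ∀ x ∈ W820.BM.OmN a n N B R,
      ∀ y ∈ W820.BM.OmN a n N B R, ∑ i : Fin n, x (some i) = ∑ i : Fin n, y (some i) →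
      ∀ δ : ℝ, 0 ≤ δ → (∀ k < 2 * n,
        ‖tc (fun t => G (x, t)) (k + 2) - tc (fun t => G (y, t)) (k + 2)‖ ≤ δ) →
      ∀ j : ℕ, ‖(fam a n x).coeff j - (fam a n y).coeff j‖ ≤ C * δ := by
  have k1 := hb.hR; have k2 := hb.hC; have k3 := hb.hR₁; have k4 := hb.hR₃
  have ha0 : 0 < ‖a‖ := norm_pos_iff.2 ha
  have hn0 : (0 : ℝ) < n + 1 := by positivity
  obtain ⟨R', hR'1, hR'2, hlip⟩ := lip ha hn hb hA
  set R'' : ℝ := max R' (max ρM (R₁ + 1)) + 1 with hR''
  have r1 : R' < R'' := by have := le_max_left R' (max ρM (R₁ + 1)); linarith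
  have r2 : ρM < R'' := by
    have := (le_max_left ρM (R₁ + 1)).trans (le_max_right R' (max ρM (R₁ + 1)))
    linarith
  have r3 : R₁ < R'' := by
    have := (le_max_right ρM (R₁ + 1)).trans (le_max_right R' (max ρM (R₁ + 1)))
    linarith
  have hR''0 : 0 < R'' := by linarith
  have hR''1 : 1 ≤ R'' := by linarith
  set A1 : ℝ := |A| + 1 with hA1
  have hA10 : 0 < A1 := by positivity
  have hAA1 : A ≤ A1 := by have := le_abs_self A; linarith
  have hA' : ∀ x : PE n, ‖x‖ ≤ B → ∀ j, ‖(fam a n x).coeff j‖ ≤ A1 := fun x hx j =>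
    (hA x hx j).trans hAA1
  set CD : ℝ := n * 2 ^ (n - 1) with hCD
  have hCD0 : 0 ≤ CD := by positivity
  set CL : ℝ := ((n : ℝ) + 2) * A1 * (n + 1) * 6 ^ n + 1 with hCL
  have hCL0 : 0 < CL := by positivity
  set CM : ℝ := CL * (CL / ‖a‖ + 1) with hCM
  have hCM0 : 0 < CM := by positivity
  obtain ⟨S, s1, s2, s3, s4, s5, s6, s7⟩ : ∃ S : ℝ, R₃ < S ∧
      2 + A1 * ((n + 1 : ℕ) : ℝ) ≤ ‖a‖ * S ∧ 2 * R'' ≤ S ∧ C₁ ≤ S ∧
      1 + CD * (((n : ℝ) + 2) * (2 * A1)) ≤ S ∧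
      2 * (((n : ℝ) + 2) * CM * CD * (2 * R'') ^ (2 * n + 1)) ≤ S ∧ 2 ≤ S := by
    obtain ⟨y1, hy1⟩ : ∃ y1 : ℝ, y1 = (2 + A1 * ((n + 1 : ℕ) : ℝ)) / ‖a‖ := ⟨_, rfl⟩
    obtain ⟨y2, hy2⟩ : ∃ y2 : ℝ, y2 = CD * (((n : ℝ) + 2) * (2 * A1)) := ⟨_, rfl⟩
    obtain ⟨y3, hy3⟩ : ∃ y3 : ℝ,
      y3 = 2 * (((n : ℝ) + 2) * CM * CD * (2 * R'') ^ (2 * n + 1)) := ⟨_, rfl⟩
    have p1 : 0 ≤ y1 := by rw [hy1]; positivity
    have p2 : 0 ≤ y2 := by rw [hy2]; positivity
    have p3 : 0 ≤ y3 := by rw [hy3]; positivity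
    rw [← hy2, ← hy3]
    refine ⟨(R₃ + 1) + y1 + 2 * R'' + C₁ + (1 + y2) + y3, by linarith, ?_, by linarith,
      by linarith, by linarith, by linarith, by linarith⟩
    have h1 : (2 + A1 * ((n + 1 : ℕ) : ℝ)) / ‖a‖ ≤
      (R₃ + 1) + y1 + 2 * R'' + C₁ + (1 + y2) + y3 := by rw [← hy1]; linarith
    rw [div_le_iff₀ ha0] at h1
    linarith
  clear_value R''
  have hS0 : 0 < S := by linarith
  set C : ℝ := 2 * (((n : ℝ) + 2) * CM * S ^ (2 * n)) + 2 * A1 with hC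
  refine ⟨C, by positivity, ?_⟩
  intro N R R₄ s G hG hs x hx y hy hsum δ hδ hclose
  have hxB : x ∈ ball (0 : PE n) B := hx.1
  have hyB : y ∈ ball (0 : PE n) B := hy.1
  have hcn : (fam a n x).coeff n = (fam a n y).coeff n := W177.BM.coeff_n hn hsum
  have htriv : ∀ j, ‖(fam a n x).coeff j - (fam a n y).coeff j‖ ≤ 2 * A1 := by
    intro j
    have := hA' x (mem_ball_zero_iff.mp hxB).le j
    have := hA' y (mem_ball_zero_iff.mp hyB).le j
    have := norm_sub_le ((fam a n x).coeff j) ((fam a n y).coeff j)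
    linarith
  have hS2n : 0 < S ^ (2 * n) := by positivity
  rcases lt_or_ge 1 δ with hδ1 | hδ1
  · intro j
    refine (htriv j).trans ?_
    have h1 : 2 * A1 * 1 ≤ 2 * A1 * δ := mul_le_mul_of_nonneg_left hδ1.le (by positivity)
    have h2 : 0 ≤ 2 * (((n : ℝ) + 2) * CM * S ^ (2 * n)) * δ := by positivity
    rw [hC, add_mul]
    linarith
  -- the total difference
  set D : ℝ := ∑ j ∈ Finset.range (n + 2), ‖(fam a n x).coeff j - (fam a n y).coeff j‖ with hD
  have hD0 : 0 ≤ D := Finset.sum_nonneg fun j _ => norm_nonneg _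
  have hDj : ∀ j, ‖(fam a n x).coeff j - (fam a n y).coeff j‖ ≤ D := by
    intro j
    by_cases hj : j < n + 2
    · exact Finset.single_le_sum
        (f := fun j => ‖(fam a n x).coeff j - (fam a n y).coeff j‖)
        (fun j _ => norm_nonneg _) (Finset.mem_range.2 hj)
    · rw [coeff_eq_zero_of_natDegree_lt (by have := natDegree_fam_le a n x; omega),
        coeff_eq_zero_of_natDegree_lt (by have := natDegree_fam_le a n y; omega), sub_self,
        norm_zero]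
      exact hD0
  have hDle : D ≤ ((n : ℝ) + 2) * (2 * A1) := by
    refine (Finset.sum_le_sum fun j _ => htriv j).trans ?_
    rw [Finset.sum_const, Finset.card_range, nsmul_eq_mul]
    push_cast
    exact le_rfl
  have hF : DifferentiableOn ℂ (fun t => G (x, t)) (ball 0 s) :=
    hG.diff.comp (by fun_prop) fun t ht => ⟨hx, ht⟩
  have hFT : DifferentiableOn ℂ (fun t => G (y, t)) (ball 0 s) :=
    hG.diff.comp (by fun_prop) fun t ht => ⟨hy, ht⟩
  have hρi : 0 < ρM⁻¹ := inv_pos.2 hρM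
  have hs0 : 0 < s := hρi.trans hs
  have hrs : R''⁻¹ < s := by
    have : R''⁻¹ < ρM⁻¹ := (inv_lt_inv₀ hR''0 hρM).2 r2
    linarith
  have hcoef : ∀ k, ‖tc (fun t => G (x, t)) (k + 2) - tc (fun t => G (y, t)) (k + 2)‖ ≤
      (CD * D) * R'' ^ (k + 1) := by
    intro k
    have h1 := tc_diff_le (F := fun t => G (x, t)) (FT := fun t => G (y, t))
      (inv_pos.2 hR''0) hrs hF hFT (E := CD * D) (by
        intro t ht
        have ht0 : t ≠ 0 := by
          intro h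
          rw [h, norm_zero] at ht
          have := inv_pos.2 hR''0
          linarith
        have hti : ‖t⁻¹‖ = R'' := by rw [norm_inv, ht, inv_inv]
        have n1 := hG.near x hx t ht0 (by rw [ht]; exact hrs) (by rw [hti]; exact r3)
        have n2 := hG.near y hy t ht0 (by rw [ht]; exact hrs) (by rw [hti]; exact r3)
        have n3 := hlip x hxB y hyB hcn D hDj t⁻¹ (by rw [hti]; exact r1)
        have e1 : G (x, t) - G (y, t) = t * (ψ (x, t⁻¹) - ψ (y, t⁻¹)) := by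
          rw [← n1, ← n2]
          field_simp
        rw [e1, norm_mul, ht]
        exact mul_le_mul_of_nonneg_left n3 (inv_pos.2 hR''0).le) (k + 1)
    rw [inv_pow, div_inv_eq_mul] at h1
    exact h1
  -- application of the key lemma
  obtain ⟨L, hL⟩ : ∃ L : ℝ, L = ∑ j ∈ Finset.range (n + 1 + 1),
      A1 * (j * (4 * S + 2 * C₁) ^ (j - 1)) := ⟨_, rfl⟩
  have hL0 : 0 ≤ L := by
    rw [hL]
    exact Finset.sum_nonneg fun j _ => by positivity
  set X : ℝ := δ + (CD * D) * (2 * R'' / S) ^ (2 * n + 1) with hX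
  have hX0 : 0 ≤ X := by positivity
  have hqS : 2 * R'' / S ≤ 1 := by rw [div_le_one hS0]; exact s3
  have hXS : X ≤ S := by
    have h1 : (2 * R'' / S) ^ (2 * n + 1) ≤ 1 := pow_le_one₀ (by positivity) hqS
    have h2 : (CD * D) * (2 * R'' / S) ^ (2 * n + 1) ≤ CD * (((n : ℝ) + 2) * (2 * A1)) := by
      calc (CD * D) * (2 * R'' / S) ^ (2 * n + 1) ≤ (CD * D) * 1 :=
            mul_le_mul_of_nonneg_left h1 (by positivity)
        _ ≤ _ := by
          rw [mul_one]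
          exact mul_le_mul_of_nonneg_left hDle hCD0
    linarith
  have hkey := fun j => GAIN.key (d := n + 1) (a := a) (A₀ := A1) (R := R₃) (C := 2 * C₁) (S := S)
    (by omega) ha (by linarith) (by linarith) s1 s2 (p := fam a n y) (q := fam a n x)
    (Φ := far ψ φ y x) (natDegree_fam_le a n y) (natDegree_fam_le a n x)
    (coeff_fam_top a n y) (coeff_fam_top a n x)
    (by rw [Nat.add_sub_cancel]; exact hcn.symm)
    (hA' y (mem_ball_zero_iff.mp hyB).le) (hA' x (mem_ball_zero_iff.mp hxB).le) (by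
      intro z hz
      have e1 := hb.ψc x hxB _ (φ_norm hb hyB hz)
      have e2 := hb.φc y hyB z hz
      calc ‖far ψ φ y x z - z‖ ≤ ‖ψ (x, φ (y, z)) - φ (y, z)‖ + ‖φ (y, z) - z‖ := by
            have : far ψ φ y x z - z = (ψ (x, φ (y, z)) - φ (y, z)) + (φ (y, z) - z) := by
              unfold far; ring
            rw [this]; exact norm_add_le _ _
        _ ≤ 2 * C₁ := by linarith) (by
      intro z hz hz'
      have e1 := φ_fx hb hyB hz hz'
      show fx a n x (ψ (x, φ (y, z))) = ψ (x, φ (y, fx a n y z))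
      rw [hb.fe x hxB _ (φ_norm hb hyB hz), e1]
      rfl) (c := tc (fun t => G (x, t)) 1 - tc (fun t => G (y, t)) 1)
    (s := X / S) (by positivity) (by rw [div_le_one hS0]; exact hXS) (by
      intro z hz
      rw [mul_div_cancel₀ _ hS0.ne']
      have hz3 : R₃ < ‖z‖ := by linarith
      set w := φ (y, z) with hw
      have hw1 : R₁ < ‖w‖ := φ_norm hb hyB hz3
      have hw2 := hb.φc y hyB z hz3
      have hw3 : ‖z‖ - ‖w‖ ≤ C₁ := by
        have := norm_sub_norm_le z w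
        rw [norm_sub_rev] at this
        exact this.trans hw2
      have hwS : S ≤ ‖w‖ := by linarith
      have hw0 : 0 < ‖w‖ := by linarith
      have hwne : w ≠ 0 := norm_pos_iff.1 hw0
      have hwi : w⁻¹ ≠ 0 := inv_ne_zero hwne
      have hwin : ‖w⁻¹‖ < s := by
        rw [norm_inv]
        have : ‖w‖⁻¹ ≤ R''⁻¹ := inv_anti₀ hR''0 (by linarith)
        linarith
      have n1 := hG.near x hx w⁻¹ hwi hwin (by rw [inv_inv]; exact hw1)
      have n2 := hG.near y hy w⁻¹ hwi hwin (by rw [inv_inv]; exact hw1)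
      rw [inv_inv] at n1 n2
      have n3 : ψ (y, w) = z := hb.ψφ y hyB z hz3
      have n4 := tailL (m := 2 * n) hR''0 hrs hF hFT (hG.zero x hx) (hG.zero y hy) hδ
        (E := CD * D) (by positivity) hclose hcoef (w := w) (by linarith) (by linarith)
      rw [n1, n2, n3] at n4
      refine n4.trans ?_
      have h8 : (2 * R'' / ‖w‖) ^ (2 * n + 1) ≤ (2 * R'' / S) ^ (2 * n + 1) :=
        pow_le_pow_left₀ (by positivity)
          (div_le_div_of_nonneg_left (by positivity) hS0 hwS) _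
      have h9 := mul_le_mul_of_nonneg_left h8 (by positivity : 0 ≤ CD * D)
      linarith) (L := L) hL j
  -- the constant
  have hS6 : 4 * S + 2 * C₁ ≤ 6 * S := by linarith
  have hLb : L + 1 ≤ CL * S ^ n := by
    have h1 : L ≤ ((n : ℝ) + 2) * A1 * (n + 1) * 6 ^ n * S ^ n := by
      rw [hL]
      have h2 : ∀ j ∈ Finset.range (n + 1 + 1), A1 * (j * (4 * S + 2 * C₁) ^ (j - 1)) ≤
          A1 * ((n + 1) * (6 * S) ^ n) := by
        intro j hj
        have hj' := Finset.mem_range.1 hj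
        have h3 : (j : ℝ) ≤ n + 1 := by exact_mod_cast (by omega : j ≤ n + 1)
        have h4 : (4 * S + 2 * C₁) ^ (j - 1) ≤ (6 * S) ^ n :=
          (pow_le_pow_left₀ (by positivity) hS6 _).trans
            (pow_le_pow_right₀ (by linarith) (by omega))
        exact mul_le_mul_of_nonneg_left (mul_le_mul h3 h4 (by positivity) (by positivity)) hA10.le
      refine (Finset.sum_le_sum h2).trans ?_
      rw [Finset.sum_const, Finset.card_range, nsmul_eq_mul, mul_pow]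
      push_cast
      exact le_of_eq (by ring)
    have h5 : (1 : ℝ) ≤ S ^ n := one_le_pow₀ (by linarith)
    rw [hCL, add_mul, one_mul]
    linarith
  have hLM : (L + 1) * S * ((L + 1) / ‖a‖ + 1) * (X / S) ≤ CM * S ^ (2 * n) * X := by
    have h1 : (L + 1) * S * ((L + 1) / ‖a‖ + 1) * (X / S) = (L + 1) * ((L + 1) / ‖a‖ + 1) * X := by
      field_simp
    rw [h1]
    apply mul_le_mul_of_nonneg_right _ hX0
    have h5 : (1 : ℝ) ≤ S ^ n := one_le_pow₀ (by linarith)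
    have h6 : (L + 1) / ‖a‖ + 1 ≤ (CL / ‖a‖ + 1) * S ^ n := by
      have : (L + 1) / ‖a‖ ≤ (CL * S ^ n) / ‖a‖ := by gcongr
      have e : (CL / ‖a‖ + 1) * S ^ n = (CL * S ^ n) / ‖a‖ + S ^ n := by ring
      rw [e]
      linarith
    calc (L + 1) * ((L + 1) / ‖a‖ + 1) ≤ (CL * S ^ n) * ((CL / ‖a‖ + 1) * S ^ n) :=
          mul_le_mul hLb h6 (by positivity) (by positivity)
      _ = CM * S ^ (2 * n) := by
          rw [hCM, two_mul, pow_add]
          ring
  have hall : ∀ j, ‖(fam a n x).coeff j - (fam a n y).coeff j‖ ≤ CM * S ^ (2 * n) * X :=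
    fun j => (hkey j).trans hLM
  have hDX : D ≤ ((n : ℝ) + 2) * (CM * S ^ (2 * n) * X) := by
    refine (Finset.sum_le_sum fun j _ => hall j).trans ?_
    rw [Finset.sum_const, Finset.card_range, nsmul_eq_mul]
    push_cast
    exact le_rfl
  have hD2 : D ≤ ((n : ℝ) + 2) * CM * S ^ (2 * n) * δ + D / 2 := by
    refine hDX.trans ?_
    have h1 : ((n : ℝ) + 2) * (CM * S ^ (2 * n) * X) = ((n : ℝ) + 2) * CM * S ^ (2 * n) * δ +
        (((n : ℝ) + 2) * CM * CD * (2 * R'') ^ (2 * n + 1)) * D / S := by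
      rw [hX, div_pow, pow_succ S (2 * n)]
      field_simp
    rw [h1]
    have h2 : (((n : ℝ) + 2) * CM * CD * (2 * R'') ^ (2 * n + 1)) * D / S ≤ D / 2 := by
      rw [div_le_div_iff₀ hS0 (by norm_num)]
      nlinarith
    linarith
  intro j
  refine (hDj j).trans ?_
  have h3 : D ≤ 2 * (((n : ℝ) + 2) * CM * S ^ (2 * n)) * δ := by linarith
  have h4 : 0 ≤ 2 * A1 * δ := by positivity
  rw [hC, add_mul]
  linarith

end

end Pool.Agent.K4H45.LL
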