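import Mathlib

/-! # A Hilbert space lemma: off-diagonal entries of a contraction move at most linearly in the defect -/

set_option autoImplicit false

namespace Pool.Agent.K4H45.LL

variable {E : Type*} [NormedAddCommGroup E] [InnerProductSpace ℂ E]

/-- the defect -/
noncomputable def df (B : E →ₗ[ℂ] E) (u : E) : ℝ := ‖u‖ ^ 2 - ‖B u‖ ^ 2

theorem df_nonneg {B : E →ₗ[ℂ] E} (hB : ∀ u, ‖B u‖ ≤ ‖u‖) (u : E) : 0 ≤ df B u := by
  have h1 := pow_le_pow_left₀ (norm_nonneg _) (hB u) 2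
  unfold df
  linarith

theorem df_smul (B : E →ₗ[ℂ] E) (c : ℂ) (u : E) : df B (c • u) = ‖c‖ ^ 2 * df B u := by
  unfold df
  rw [map_smul, norm_smul, norm_smul]
  ring

theorem df_add (B : E →ₗ[ℂ] E) (hB : ∀ u, ‖B u‖ ≤ ‖u‖) (u v : E) :
    df B (u + v) ≤ 2 * df B u + 2 * df B v := by
  have h1 := parallelogram_law_with_norm ℂ u v
  have h2 := parallelogram_law_with_norm ℂ (B u) (B v)
  have h3 := df_nonneg hB (u - v)
  unfold df at h3 ⊢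
  rw [map_sub] at h3
  rw [map_add]
  nlinarith

/-- the basic inequality -/
theorem df_le {B M : E →ₗ[ℂ] E} (hM : ∀ u, ‖M u‖ ≤ ‖u‖) (u : E) :
    ‖(M - B) u‖ ^ 2 ≤ df B u - 2 * ((inner ℂ (B u) ((M - B) u))).re := by
  have h1 : M u = B u + (M - B) u := by simp
  have h2 := pow_le_pow_left₀ (norm_nonneg _) (hM u) 2
  rw [h1, norm_add_sq (𝕜 := ℂ)] at h2
  unfold df
  have h3 : RCLike.re ((inner ℂ (B u) ((M - B) u))) = ((inner ℂ (B u) ((M - B) u))).re := rfl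
  rw [h3] at h2
  linarith

variable {B M : E →ₗ[ℂ] E} {e e' q : E} {lam S : ℝ}

theorem lam_nonneg (hB : ∀ u, ‖B u‖ ≤ ‖u‖) (he : ‖e‖ = 1) (h1 : 1 - lam ≤ ‖B e‖ ^ 2) :
    0 ≤ lam := by
  have h2 := pow_le_pow_left₀ (norm_nonneg _) (hB e) 2
  rw [he] at h2
  linarith

theorem q_self (hq : ∀ u, (inner ℂ (q) (u)) = (inner ℂ (e') (B u))) : (inner ℂ (e') (B q)) = ((‖q‖ ^ 2 : ℝ) : ℂ) := by
  rw [← hq, inner_self_eq_norm_sq_to_K]
  push_cast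
  rfl

theorem q_le (he' : ‖e'‖ = 1) (hq : ∀ u, (inner ℂ (q) (u)) = (inner ℂ (e') (B u))) : ‖q‖ ^ 2 ≤ ‖B q‖ := by
  have h1 : ‖(inner ℂ (e') (B q))‖ ≤ ‖e'‖ * ‖B q‖ := norm_inner_le_norm _ _
  rw [q_self hq, he', one_mul, Complex.norm_real, Real.norm_eq_abs, abs_of_nonneg (sq_nonneg _)]
    at h1
  exact h1

theorem q_one (hB : ∀ u, ‖B u‖ ≤ ‖u‖) (he' : ‖e'‖ = 1) (hq : ∀ u, (inner ℂ (q) (u)) = (inner ℂ (e') (B u))) :
    ‖q‖ ≤ 1 := by
  have h1 := (q_le he' hq).trans (hB q)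
  by_contra hcon
  push Not at hcon
  nlinarith

theorem df_q (hB : ∀ u, ‖B u‖ ≤ ‖u‖) (he' : ‖e'‖ = 1) (hq : ∀ u, (inner ℂ (q) (u)) = (inner ℂ (e') (B u)))
    (h2 : 1 - lam ≤ ‖q‖ ^ 2) : df B q ≤ lam := by
  have h3 := q_le he' hq
  have h4 := q_one hB he' hq
  have h5 := pow_le_pow_left₀ (sq_nonneg _) h3 2
  unfold df
  have h6 : ‖q‖ ^ 2 ≤ 1 := pow_le_one₀ (norm_nonneg _) h4
  nlinarith [sq_nonneg ‖q‖, sq_nonneg (‖q‖ ^ 2 - 1)]

theorem df_ut (hB : ∀ u, ‖B u‖ ≤ ‖u‖) (he : ‖e‖ = 1) (he' : ‖e'‖ = 1)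
    (hq : ∀ u, (inner ℂ (q) (u)) = (inner ℂ (e') (B u))) (h1 : 1 - lam ≤ ‖B e‖ ^ 2) (h2 : 1 - lam ≤ ‖q‖ ^ 2)
    {θ : ℂ} (hθ : ‖θ‖ = 1) : df B (e + θ • q) ≤ 4 * lam := by
  have h3 := df_add B hB e (θ • q)
  rw [df_smul, hθ, one_pow, one_mul] at h3
  have h4 := df_q hB he' hq h2
  have h5 : df B e ≤ lam := by
    unfold df
    rw [he]
    linarith
  linarith

/-- the lower bound of the real part -/
theorem re_bound (hB : ∀ u, ‖B u‖ ≤ ‖u‖) (hM : ∀ u, ‖M u‖ ≤ ‖u‖) (he : ‖e‖ = 1)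
    (he' : ‖e'‖ = 1) (hq : ∀ u, (inner ℂ (q) (u)) = (inner ℂ (e') (B u))) (h1 : 1 - lam ≤ ‖B e‖ ^ 2)
    (h2 : 1 - lam ≤ ‖q‖ ^ 2) {θ : ℂ} (hθ : ‖θ‖ = 1) :
    ((inner ℂ (B (e + θ • q)) ((M - B) (e + θ • q)))).re ≤ 2 * lam := by
  have h3 := df_le hM (B := B) (e + θ • q)
  have h4 := df_ut hB he he' hq h1 h2 hθ
  have h5 := sq_nonneg ‖(M - B) (e + θ • q)‖
  linarith

theorem polar (u v : E) (Δ : E →ₗ[ℂ] E) : 4 * (inner ℂ (B v) (Δ u)) =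
    1 * (inner ℂ (B (u + (1 : ℂ) • v)) (Δ (u + (1 : ℂ) • v))) +
    Complex.I * (inner ℂ (B (u + Complex.I • v)) (Δ (u + Complex.I • v))) +
    (-1) * (inner ℂ (B (u + (-1 : ℂ) • v)) (Δ (u + (-1 : ℂ) • v))) +
    (-Complex.I) * (inner ℂ (B (u + (-Complex.I) • v)) (Δ (u + (-Complex.I) • v))) := by
  simp only [map_add, map_smul, inner_add_left, inner_add_right, inner_smul_left,
    inner_smul_right, map_neg, map_one, Complex.conj_I]
  ring_nf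
  rw [Complex.I_sq]
  ring_nf

/-- The Hilbert space lemma. -/
theorem hil (hB : ∀ u, ‖B u‖ ≤ ‖u‖) (hM : ∀ u, ‖M u‖ ≤ ‖u‖) (he : ‖e‖ = 1) (he' : ‖e'‖ = 1)
    (hq : ∀ u, (inner ℂ (q) (u)) = (inner ℂ (e') (B u))) (h1 : 1 - lam ≤ ‖B e‖ ^ 2) (h2 : 1 - lam ≤ ‖q‖ ^ 2)
    (hS0 : 0 ≤ S)
    (hS : ∀ θ : ℂ, θ = 1 ∨ θ = Complex.I ∨ θ = -1 ∨ θ = -Complex.I →
      ‖(inner ℂ (B (e + θ • q)) ((M - B) (e + θ • q)))‖ ≤ S * lam) :
    ‖(inner ℂ (e') ((M - B) e))‖ ≤ (S + Real.sqrt (4 + 2 * S)) * lam := by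
  have hl := lam_nonneg hB he h1
  have hn : ∀ θ : ℂ, θ = 1 ∨ θ = Complex.I ∨ θ = -1 ∨ θ = -Complex.I → ‖θ‖ = 1 := by
    rintro θ (rfl | rfl | rfl | rfl) <;> simp
  have hd : ∀ θ : ℂ, θ = 1 ∨ θ = Complex.I ∨ θ = -1 ∨ θ = -Complex.I →
      ‖(M - B) (e + θ • q)‖ ≤ Real.sqrt ((4 + 2 * S) * lam) := by
    intro θ hθ
    apply Real.le_sqrt_of_sq_le
    have h3 := df_le hM (B := B) (e + θ • q)
    have h4 := df_ut hB he he' hq h1 h2 (hn θ hθ)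
    have h5 := (Complex.abs_re_le_norm _).trans (hS θ hθ)
    have h6 := (abs_le.1 h5).1
    linarith
  have hΔe : ‖(M - B) e‖ ≤ Real.sqrt ((4 + 2 * S) * lam) := by
    have h3 : (4 : ℂ) • (M - B) e = (M - B) (e + (1 : ℂ) • q) + (M - B) (e + Complex.I • q) +
        (M - B) (e + (-1 : ℂ) • q) + (M - B) (e + (-Complex.I) • q) := by
      simp only [map_add, map_smul]
      module
    have h4 : ‖(4 : ℂ) • (M - B) e‖ ≤ 4 * Real.sqrt ((4 + 2 * S) * lam) := by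
      rw [h3]
      refine (norm_add_le _ _).trans ?_
      have g1 := norm_add_le ((M - B) (e + (1 : ℂ) • q) + (M - B) (e + Complex.I • q))
        ((M - B) (e + (-1 : ℂ) • q))
      have g2 := norm_add_le ((M - B) (e + (1 : ℂ) • q)) ((M - B) (e + Complex.I • q))
      have k1 := hd 1 (Or.inl rfl)
      have k2 := hd Complex.I (Or.inr (Or.inl rfl))
      have k3 := hd (-1) (Or.inr (Or.inr (Or.inl rfl)))
      have k4 := hd (-Complex.I) (Or.inr (Or.inr (Or.inr rfl)))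
      linarith
    rw [norm_smul] at h4
    have h5 : ‖(4 : ℂ)‖ = 4 := by norm_num
    rw [h5] at h4
    linarith
  have hBq : ‖(inner ℂ (B q) ((M - B) e))‖ ≤ S * lam := by
    have h3 := polar (B := B) e q (M - B)
    have h4 : ‖(4 : ℂ) * (inner ℂ (B q) ((M - B) e))‖ ≤ 4 * (S * lam) := by
      rw [h3]
      refine (norm_add_le _ _).trans ?_
      have k1 := hS 1 (Or.inl rfl)
      have k2 := hS Complex.I (Or.inr (Or.inl rfl))
      have k3 := hS (-1) (Or.inr (Or.inr (Or.inl rfl)))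
      have k4 := hS (-Complex.I) (Or.inr (Or.inr (Or.inr rfl)))
      have g1 := norm_add_le (1 * (inner ℂ (B (e + (1 : ℂ) • q)) ((M - B) (e + (1 : ℂ) • q))) +
        Complex.I * (inner ℂ (B (e + Complex.I • q)) ((M - B) (e + Complex.I • q))))
        ((-1) * (inner ℂ (B (e + (-1 : ℂ) • q)) ((M - B) (e + (-1 : ℂ) • q))))
      have g2 := norm_add_le (1 * (inner ℂ (B (e + (1 : ℂ) • q)) ((M - B) (e + (1 : ℂ) • q))))
        (Complex.I * (inner ℂ (B (e + Complex.I • q)) ((M - B) (e + Complex.I • q))))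
      rw [norm_mul, norm_mul, norm_one, Complex.norm_I, one_mul, one_mul] at g2
      rw [norm_mul (-1 : ℂ), norm_neg, norm_one, one_mul] at g1
      rw [norm_mul, norm_neg, Complex.norm_I, one_mul]
      linarith
    rw [norm_mul] at h4
    have h5 : ‖(4 : ℂ)‖ = 4 := by norm_num
    rw [h5] at h4
    linarith
  have hr : ‖e' - B q‖ ≤ Real.sqrt lam := by
    apply Real.le_sqrt_of_sq_le
    rw [norm_sub_sq (𝕜 := ℂ), q_self hq, he']
    have h3 : RCLike.re (((‖q‖ ^ 2 : ℝ) : ℂ)) = ‖q‖ ^ 2 := Complex.ofReal_re _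
    rw [h3]
    have h4 := pow_le_pow_left₀ (norm_nonneg _) (hB q) 2
    linarith
  have hfin : (inner ℂ (e') ((M - B) e)) = (inner ℂ (B q) ((M - B) e)) + (inner ℂ (e' - B q) ((M - B) e)) := by
    rw [inner_sub_left]
    ring
  rw [hfin]
  refine (norm_add_le _ _).trans ?_
  have h3 : ‖(inner ℂ (e' - B q) ((M - B) e))‖ ≤ Real.sqrt lam * Real.sqrt ((4 + 2 * S) * lam) :=
    (norm_inner_le_norm _ _).trans (mul_le_mul hr hΔe (norm_nonneg _) (Real.sqrt_nonneg _))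
  have h4 : Real.sqrt lam * Real.sqrt ((4 + 2 * S) * lam) = Real.sqrt (4 + 2 * S) * lam := by
    rw [Real.sqrt_mul (by linarith), mul_left_comm, Real.mul_self_sqrt hl]
  rw [h4] at h3
  linarith

end Pool.Agent.K4H45.LL
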