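import Mathlib
import Pool.Agent.K4H45.LL.Fab
import Pool.Agent.K4H45.LL.Hil

/-! # The Grunsky matrix is a contraction -/

set_option autoImplicit false

open Topology Filter Metric Set Polynomial MeasureTheory
open Pool.Agent.H713R2 Pool.Agent.H713R2.AR

namespace Pool.Agent.K4H45.LL

variable {g : ℂ → ℂ} {s r : ℝ}

/-- combination of Faber polynomials in the exterior coordinate -/
noncomputable def HU (g : ℂ → ℂ) {L : ℕ} (u : Fin L → ℂ) : ℂ → ℂ := fun t =>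
  ∑ i : Fin L, u i * (t ^ (L - ((i : ℕ) + 1)) * HF g (i + 1) t)

/-- combination of Faber polynomials -/
noncomputable def QU (g : ℂ → ℂ) {L : ℕ} (u : Fin L → ℂ) : ℂ[X] :=
  ∑ i : Fin L, C (u i) * FB g (i + 1)

theorem HU_diff (hg : DifferentiableOn ℂ g (ball 0 s)) {L : ℕ} (u : Fin L → ℂ) :
    DifferentiableOn ℂ (HU g u) (ball 0 s) := by
  unfold HU
  apply DifferentiableOn.fun_sum
  intro i _
  have := HF_diff hg (i + 1)
  fun_prop

theorem HU_eval {L : ℕ} (u : Fin L → ℂ) {t : ℂ} (ht : t ≠ 0) :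
    HU g u t = t ^ L * (QU g u).eval (t⁻¹ * g t) := by
  unfold HU QU
  rw [eval_finsetSum, Finset.mul_sum]
  apply Finset.sum_congr rfl
  intro i _
  rw [eval_mul, eval_C, eval_FB _ ht]
  have h1 : t ^ L = t ^ (L - ((i : ℕ) + 1)) * t ^ ((i : ℕ) + 1) := by
    rw [← pow_add]
    congr 1
    have := i.2
    omega
  rw [h1]
  ring

theorem tc_HU (hs : 0 < s) (hg : DifferentiableOn ℂ g (ball 0 s)) {L : ℕ} (u : Fin L → ℂ) (k : ℕ) :
    tc (HU g u) k = ∑ i : Fin L, u i * (if L - ((i : ℕ) + 1) ≤ k then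
      tc (HF g (i + 1)) (k - (L - ((i : ℕ) + 1))) else 0) := by
  unfold HU
  have hd : ∀ i : Fin L, DifferentiableOn ℂ
      (fun t : ℂ => t ^ (L - ((i : ℕ) + 1)) * HF g (i + 1) t) (ball 0 s) := fun i => by
    have := HF_diff hg (i + 1)
    fun_prop
  rw [tc_sum hs _ (fun i _ => (hd i).const_mul _)]
  apply Finset.sum_congr rfl
  intro i _
  rw [tc_const_mul hs (hd i), tc_pow_mul hs (HF_diff hg _)]

theorem tc_HU_lt (hs : 0 < s) (hg : DifferentiableOn ℂ g (ball 0 s)) (h0 : g 0 = 1) {L : ℕ}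
    (u : Fin L → ℂ) (i : Fin L) : tc (HU g u) (L - ((i : ℕ) + 1)) = u i := by
  rw [tc_HU hs hg, Finset.sum_eq_single i]
  · rw [if_pos le_rfl, Nat.sub_self, tc_HF_le hs hg h0 _ _ (by omega), if_pos rfl, mul_one]
  · intro l _ hne
    split_ifs with h1
    · have hl := l.2
      have hi := i.2
      have hne' : (l : ℕ) ≠ i := fun h => hne (Fin.ext h)
      rw [tc_HF_le hs hg h0 _ _ (by omega), if_neg (by omega), mul_zero]
    · rw [mul_zero]
  · intro h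
    exact absurd (Finset.mem_univ _) h

theorem tc_HU_ge (hs : 0 < s) (hg : DifferentiableOn ℂ g (ball 0 s)) {L : ℕ}
    (u : Fin L → ℂ) (j : ℕ) : tc (HU g u) (L + j) = ∑ i : Fin L, u i * gr g (i + 1) j := by
  rw [tc_HU hs hg]
  apply Finset.sum_congr rfl
  intro i _
  have hi := i.2
  rw [if_pos (by omega)]
  unfold gr
  congr 2
  omega

theorem sum_lt_eq {L : ℕ} (F : ℕ → ℝ) : ∑ k ∈ Finset.range L, F k =
    ∑ i : Fin L, F (L - ((i : ℕ) + 1)) := by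
  rw [← Finset.sum_range_reflect, Finset.sum_range]
  apply Finset.sum_congr rfl
  intro i _
  congr 1
  omega

/-- Grunsky's inequality, with the area. -/
theorem grunsky_area (hr : 0 < r) (hrs : r < s) (hg : IsExt s g) {L : ℕ} (u : Fin L → ℂ) :
    HasSum (fun j : ℕ => (j : ℝ) * (‖∑ i : Fin L, u i * gr g (i + 1) j‖ ^ 2 * r ^ (2 * j)))
      (∑ i : Fin L, ((i : ℝ) + 1) * (‖u i‖ ^ 2 * (r ^ (2 * ((i : ℕ) + 1)))⁻¹) -
        1 / Real.pi * ∫ z in (UU g r)ᶜ, ‖(derivative (QU g u)).eval z‖ ^ 2) := by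
  have hs : 0 < s := hr.trans hrs
  have hgd := hg.diff
  obtain ⟨hsum, -⟩ := area_formula hr hrs hg (Q := QU g u) (D := L) (H := HU g u) (HU_diff hgd u)
    (fun x _ hx0 => HU_eval u hx0)
  set I : ℝ := ∫ z in (UU g r)ᶜ, ‖(derivative (QU g u)).eval z‖ ^ 2 with hI
  have h2 := (hasSum_nat_add_iff' L).2 hsum
  rw [sum_lt_eq] at h2
  have hrL : (r ^ (2 * L)) ≠ 0 := pow_ne_zero _ hr.ne'
  have h3 := (h2.mul_left (-(r ^ (2 * L))⁻¹))
  have e1 : (fun j : ℕ => (j : ℝ) * (‖∑ i : Fin L, u i * gr g (i + 1) j‖ ^ 2 * r ^ (2 * j))) =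
      fun j : ℕ => -(r ^ (2 * L))⁻¹ * (((L : ℝ) - ((j + L : ℕ) : ℝ)) *
        (‖tc (HU g u) (j + L)‖ ^ 2 * r ^ (2 * (j + L)))) := by
    funext j
    rw [add_comm j L, tc_HU_ge hs hgd]
    push_cast
    rw [show 2 * (L + j) = 2 * L + 2 * j by ring, pow_add]
    field_simp
    ring
  have e2 : ∑ i : Fin L, ((i : ℝ) + 1) * (‖u i‖ ^ 2 * (r ^ (2 * ((i : ℕ) + 1)))⁻¹) -
        1 / Real.pi * I = -(r ^ (2 * L))⁻¹ * (r ^ (2 * L) / Real.pi * I -
          ∑ i : Fin L, ((L : ℝ) - ((L - ((i : ℕ) + 1) : ℕ) : ℝ)) *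
            (‖tc (HU g u) (L - ((i : ℕ) + 1))‖ ^ 2 * r ^ (2 * (L - ((i : ℕ) + 1))))) := by
    rw [mul_sub, Finset.mul_sum]
    have h4 : ∀ i : Fin L, -(r ^ (2 * L))⁻¹ * (((L : ℝ) - ((L - ((i : ℕ) + 1) : ℕ) : ℝ)) *
        (‖tc (HU g u) (L - ((i : ℕ) + 1))‖ ^ 2 * r ^ (2 * (L - ((i : ℕ) + 1))))) =
        -(((i : ℝ) + 1) * (‖u i‖ ^ 2 * (r ^ (2 * ((i : ℕ) + 1)))⁻¹)) := by
      intro i
      have hi := i.2
      rw [tc_HU_lt hs hgd hg.zero]
      have h5 : r ^ (2 * L) = r ^ (2 * (L - ((i : ℕ) + 1))) * r ^ (2 * ((i : ℕ) + 1)) := by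
        rw [← pow_add]
        congr 1
        omega
      have h6 : ((L - ((i : ℕ) + 1) : ℕ) : ℝ) = (L : ℝ) - ((i : ℝ) + 1) := by
        rw [Nat.cast_sub (by omega)]
        push_cast
        ring
      rw [h6, h5]
      have h7 : r ^ (2 * (L - ((i : ℕ) + 1))) ≠ 0 := pow_ne_zero _ hr.ne'
      have h8 : r ^ (2 * ((i : ℕ) + 1)) ≠ 0 := pow_ne_zero _ hr.ne'
      field_simp
      ring
    rw [Finset.sum_congr rfl (fun i _ => h4 i), Finset.sum_neg_distrib, sub_neg_eq_add]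
    field_simp
    ring
  rw [e1, e2]
  exact h3

end Pool.Agent.K4H45.LL
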