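import Mathlib
import Pool.Agent.K4H45.LL.Gru

/-! # The normalised Grunsky matrix -/

set_option autoImplicit false

open Topology Filter Metric Set Polynomial MeasureTheory
open Pool.Agent.H713R2 Pool.Agent.H713R2.AR

namespace Pool.Agent.K4H45.LL

variable {g : ℂ → ℂ} {s r : ℝ}

/-- weight -/
noncomputable def wt (r : ℝ) (i : ℕ) : ℝ := r ^ (i + 1) / Real.sqrt (i + 1)

theorem wt_pos (hr : 0 < r) (i : ℕ) : 0 < wt r i := by
  unfold wt
  positivity

theorem wt_sq (r : ℝ) (i : ℕ) : wt r i ^ 2 = r ^ (2 * (i + 1)) / (i + 1) := by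
  unfold wt
  rw [div_pow, Real.sq_sqrt (by positivity), ← pow_mul, mul_comm 2]

/-- the normalised Grunsky coefficients -/
noncomputable def mu (g : ℂ → ℂ) (r : ℝ) (j i : ℕ) : ℂ :=
  ((((j : ℝ) + 1) * wt r j * wt r i : ℝ) : ℂ) * gr g (i + 1) (j + 1)

theorem norm_row {L : ℕ} (hr : 0 < r) (v : Fin L → ℂ) (j : ℕ) :
    ‖∑ i : Fin L, mu g r j i * v i‖ ^ 2 = (((j + 1 : ℕ) : ℝ)) *
      (‖∑ i : Fin L, (((wt r i : ℝ) : ℂ) * v i) * gr g (i + 1) (j + 1)‖ ^ 2 *
        r ^ (2 * (j + 1))) := by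
  have h1 : ∑ i : Fin L, mu g r j i * v i = ((((j : ℝ) + 1) * wt r j : ℝ) : ℂ) *
      ∑ i : Fin L, (((wt r i : ℝ) : ℂ) * v i) * gr g (i + 1) (j + 1) := by
    rw [Finset.mul_sum]
    apply Finset.sum_congr rfl
    intro i _
    unfold mu
    push_cast
    ring
  have hw := wt_pos hr j
  rw [h1, norm_mul, mul_pow, Complex.norm_real, Real.norm_eq_abs,
    abs_of_pos (by positivity), mul_pow, wt_sq]
  push_cast
  field_simp

/-- the matrix is a contraction -/
theorem contr (hr : 0 < r) (hrs : r < s) (hg : IsExt s g) {N : ℕ} (v : Fin N → ℂ) :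
    ∑ j : Fin N, ‖∑ i : Fin N, mu g r j i * v i‖ ^ 2 ≤ ∑ i : Fin N, ‖v i‖ ^ 2 := by
  have h := grunsky_area hr hrs hg (fun i : Fin N => ((wt r i : ℝ) : ℂ) * v i)
  set I : ℝ := ∫ z in (UU g r)ᶜ,
    ‖(derivative (QU g (fun i : Fin N => ((wt r i : ℝ) : ℂ) * v i))).eval z‖ ^ 2 with hI
  have hI0 : 0 ≤ I := integral_nonneg fun z => by positivity
  have h1 := sum_le_hasSum (Finset.range (N + 1)) (fun j _ => by positivity) h
  rw [Finset.sum_range_succ'] at h1
  simp only [Nat.cast_zero, zero_mul, add_zero] at h1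
  have h2 : ∑ j : Fin N, ‖∑ i : Fin N, mu g r j i * v i‖ ^ 2 = ∑ j ∈ Finset.range N,
      ((j + 1 : ℕ) : ℝ) * (‖∑ i : Fin N, (((wt r i : ℝ) : ℂ) * v i) * gr g (i + 1) (j + 1)‖ ^ 2 *
        r ^ (2 * (j + 1))) := by
    rw [Finset.sum_range]
    apply Finset.sum_congr rfl
    intro j _
    exact norm_row hr v j
  rw [h2]
  refine h1.trans ?_
  have h3 : ∑ i : Fin N, ((i : ℝ) + 1) * (‖((wt r i : ℝ) : ℂ) * v i‖ ^ 2 *
      (r ^ (2 * ((i : ℕ) + 1)))⁻¹) = ∑ i : Fin N, ‖v i‖ ^ 2 := by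
    apply Finset.sum_congr rfl
    intro i _
    have hw := wt_pos hr i
    rw [norm_mul, mul_pow, Complex.norm_real, Real.norm_eq_abs, abs_of_pos hw, wt_sq]
    field_simp
  rw [h3]
  have : 0 ≤ 1 / Real.pi * I := by positivity
  linarith

/-- the defect of a column -/
theorem column (hr : 0 < r) (hrs : r < s) (hg : IsExt s g) (k : ℕ) :
    HasSum (fun j : ℕ => ‖mu g r j k‖ ^ 2) (1 - wt r k ^ 2 / Real.pi *
      ∫ z in (UU g r)ᶜ, ‖(derivative (FB g (k + 1))).eval z‖ ^ 2) := by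
  set u : Fin (k + 1) → ℂ := Pi.single (Fin.last k) ((wt r k : ℝ) : ℂ) with hu
  have hu1 : ∀ F : Fin (k + 1) → ℂ, ∑ i : Fin (k + 1), u i * F i =
      ((wt r k : ℝ) : ℂ) * F (Fin.last k) := by
    intro F
    rw [Finset.sum_eq_single (Fin.last k)]
    · rw [hu, Pi.single_eq_same]
    · intro i _ hne
      rw [hu, Pi.single_eq_of_ne hne, zero_mul]
    · intro h
      exact absurd (Finset.mem_univ _) h
  have h := grunsky_area hr hrs hg u
  have hQ : QU g u = C ((wt r k : ℝ) : ℂ) * FB g (k + 1) := by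
    unfold QU
    rw [Finset.sum_eq_single (Fin.last k)]
    · rw [hu, Pi.single_eq_same]
      simp
    · intro i _ hne
      rw [hu, Pi.single_eq_of_ne hne, C_0, zero_mul]
    · intro h
      exact absurd (Finset.mem_univ _) h
  have hw := wt_pos hr k
  rw [hQ] at h
  have hint : ∫ z in (UU g r)ᶜ, ‖(derivative (C ((wt r k : ℝ) : ℂ) * FB g (k + 1))).eval z‖ ^ 2 =
      wt r k ^ 2 * ∫ z in (UU g r)ᶜ, ‖(derivative (FB g (k + 1))).eval z‖ ^ 2 := by
    rw [← integral_const_mul]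
    congr 1
    funext z
    rw [derivative_C_mul, eval_mul, eval_C, norm_mul, mul_pow, Complex.norm_real,
      Real.norm_eq_abs, abs_of_pos hw]
  rw [hint] at h
  have hN : ∑ i : Fin (k + 1), ((i : ℝ) + 1) * (‖u i‖ ^ 2 * (r ^ (2 * ((i : ℕ) + 1)))⁻¹) = 1 := by
    rw [Finset.sum_eq_single (Fin.last k)]
    · rw [hu, Pi.single_eq_same, Complex.norm_real, Real.norm_eq_abs, abs_of_pos hw, wt_sq]
      simp only [Fin.val_last]
      field_simp
    · intro i _ hne
      rw [hu, Pi.single_eq_of_ne hne, norm_zero]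
      ring
    · intro h
      exact absurd (Finset.mem_univ _) h
  rw [hN] at h
  have h2 := (hasSum_nat_add_iff' 1).2 h
  rw [Finset.sum_range_one, Nat.cast_zero, zero_mul, sub_zero] at h2
  have e1 : (fun j : ℕ => ‖mu g r j k‖ ^ 2) = fun j : ℕ => ((j + 1 : ℕ) : ℝ) *
      (‖∑ i : Fin (k + 1), u i * gr g (i + 1) (j + 1)‖ ^ 2 * r ^ (2 * (j + 1))) := by
    funext j
    rw [hu1 (fun i => gr g (i + 1) (j + 1))]
    simp only [Fin.val_last]
    unfold mu
    have hwj := wt_pos hr j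
    rw [norm_mul, norm_mul, mul_pow, mul_pow, Complex.norm_real, Complex.norm_real,
      Real.norm_eq_abs, Real.norm_eq_abs, abs_of_pos (by positivity), abs_of_pos hw, mul_pow,
      mul_pow, wt_sq r j]
    push_cast
    field_simp
  have e2 : ∀ J : ℝ, 1 - wt r k ^ 2 / Real.pi * J = 1 - 1 / Real.pi * (wt r k ^ 2 * J) := by
    intro J
    ring
  rw [e1, e2]
  exact h2

/-- the first row is the first column -/
theorem mu_symm (hs : 0 < s) (hg : DifferentiableOn ℂ g (ball 0 s)) (h0 : g 0 = 1) (i : ℕ) :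
    mu g r 0 i = mu g r i 0 := by
  unfold mu
  rw [gr_row hs hg h0, zero_add, gr_one hs hg (by omega)]
  push_cast
  ring

theorem mu_row (hs : 0 < s) (hg : DifferentiableOn ℂ g (ball 0 s)) (h0 : g 0 = 1) (i : ℕ) :
    mu g r 0 i = (((wt r 0 * wt r i) * ((i : ℝ) + 1) : ℝ) : ℂ) * tc g (i + 2) := by
  unfold mu
  rw [zero_add, gr_row hs hg h0]
  push_cast
  ring

/-! ### The linear map -/

/-- the linear map with the given matrix -/
noncomputable def LM {N : ℕ} (A : ℕ → ℕ → ℂ) :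
    EuclideanSpace ℂ (Fin N) →ₗ[ℂ] EuclideanSpace ℂ (Fin N) where
  toFun u := WithLp.toLp 2 (fun j : Fin N => ∑ i : Fin N, A j i * u i)
  map_add' u v := by
    ext j
    simp [mul_add, Finset.sum_add_distrib]
  map_smul' c u := by
    ext j
    simp only [PiLp.smul_apply, smul_eq_mul, RingHom.id_apply, Finset.mul_sum]
    apply Finset.sum_congr rfl
    intro i _
    ring

theorem LM_apply {N : ℕ} (A : ℕ → ℕ → ℂ) (u : EuclideanSpace ℂ (Fin N)) (j : Fin N) :
    (LM A u) j = ∑ i : Fin N, A j i * u i := rfl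

theorem LM_contr (hr : 0 < r) (hrs : r < s) (hg : IsExt s g) {N : ℕ}
    (u : EuclideanSpace ℂ (Fin N)) : ‖LM (mu g r) u‖ ≤ ‖u‖ := by
  have h := contr hr hrs hg (fun i => u i)
  rw [← sq_le_sq₀ (norm_nonneg _) (norm_nonneg _), EuclideanSpace.norm_sq_eq,
    EuclideanSpace.norm_sq_eq]
  exact h

theorem LM_sub {N : ℕ} (A A' : ℕ → ℕ → ℂ) :
    (LM A - LM A' : EuclideanSpace ℂ (Fin N) →ₗ[ℂ] EuclideanSpace ℂ (Fin N)) =
      LM (fun j i => A j i - A' j i) := by
  ext u j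
  simp only [LinearMap.sub_apply, PiLp.sub_apply, LM_apply]
  rw [← Finset.sum_sub_distrib]
  apply Finset.sum_congr rfl
  intro i _
  ring

theorem LM_single {N : ℕ} (A : ℕ → ℕ → ℂ) (k j : Fin N) :
    (LM A (EuclideanSpace.single k (1 : ℂ))) j = A j k := by
  rw [LM_apply, Finset.sum_eq_single k]
  · simp
  · intro i _ hne
    simp [hne]
  · intro h
    exact absurd (Finset.mem_univ _) h

theorem inner_eq {N : ℕ} (u v : EuclideanSpace ℂ (Fin N)) :
    inner ℂ u v = ∑ i : Fin N, (starRingEnd ℂ) (u i) * v i := by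
  rw [PiLp.inner_apply]
  apply Finset.sum_congr rfl
  intro i _
  rw [RCLike.inner_apply, mul_comm]

/-- the adjoint of the first basis vector -/
noncomputable def qv {N : ℕ} (A : ℕ → ℕ → ℂ) : EuclideanSpace ℂ (Fin N) :=
  WithLp.toLp 2 (fun i : Fin N => (starRingEnd ℂ) (A 0 i))

theorem qv_spec {N : ℕ} (hN : 0 < N) (A : ℕ → ℕ → ℂ) (u : EuclideanSpace ℂ (Fin N)) :
    inner ℂ (qv A) u = inner ℂ (EuclideanSpace.single (⟨0, hN⟩ : Fin N) (1 : ℂ)) (LM A u) := by
  rw [inner_eq, inner_eq]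
  symm
  rw [Finset.sum_eq_single (⟨0, hN⟩ : Fin N)]
  · rw [LM_apply]
    simp [qv]
  · intro i _ hne
    simp [hne]
  · intro h
    exact absurd (Finset.mem_univ _) h

end Pool.Agent.K4H45.LL
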