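import Mathlib
import Pool.Agent.K4H45.LL.Gru2

/-! # The linear peak function for contractions -/

set_option autoImplicit false

open Topology Filter Metric Set

namespace Pool.Agent.K4H45.LL

/-- the fourth roots of unity -/
noncomputable def Th : Fin 4 → ℂ := ![1, Complex.I, -1, -Complex.I]

theorem Th_norm (l : Fin 4) : ‖Th l‖ = 1 := by
  fin_cases l <;> simp [Th]

section
variable {N : ℕ}

/-- the test vectors -/
noncomputable def ut (A : ℕ → ℕ → ℂ) (k : Fin N) (l : Fin 4) : EuclideanSpace ℂ (Fin N) :=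
  EuclideanSpace.single k (1 : ℂ) + Th l • qv A

/-- the test functions -/
noncomputable def ph (AT : ℕ → ℕ → ℂ) (A : ℕ → ℕ → ℂ) (k : Fin N) (l : Fin 4) : ℂ :=
  inner ℂ (LM AT (ut AT k l))
    ((LM A - LM AT : EuclideanSpace ℂ (Fin N) →ₗ[ℂ] EuclideanSpace ℂ (Fin N)) (ut AT k l))

/-- the shifted test functions -/
noncomputable def gt (lam : ℝ) (AT : ℕ → ℕ → ℂ) (A : ℕ → ℕ → ℂ) (k : Fin N) (l : Fin 4) : ℂ :=
  1 - ((4 * lam : ℝ) : ℂ)⁻¹ * ph AT A k l

/-- the peak function -/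
noncomputable def hp (K : ℕ) (lam : ℝ) (AT : ℕ → ℕ → ℂ) (N : ℕ) (A : ℕ → ℕ → ℂ) : ℂ :=
  -∑ p ∈ (Finset.univ : Finset (Fin N × Fin 4)).filter (fun p => (p.1 : ℕ) < K),
    Complex.log (gt lam AT A p.1 p.2)

theorem ph_self (AT : ℕ → ℕ → ℂ) (k : Fin N) (l : Fin 4) : ph AT AT k l = 0 := by
  unfold ph
  rw [sub_self, LinearMap.zero_apply, inner_zero_right]

theorem hp_self (K : ℕ) (lam : ℝ) (AT : ℕ → ℕ → ℂ) (N : ℕ) : hp K lam AT N AT = 0 := by
  unfold hp
  rw [Finset.sum_eq_zero, neg_zero]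
  intro p _
  unfold gt
  rw [ph_self, mul_zero, sub_zero, Complex.log_one]

theorem ph_eq (AT A : ℕ → ℕ → ℂ) (k : Fin N) (l : Fin 4) : ph AT A k l =
    ∑ j : Fin N, (starRingEnd ℂ) (LM AT (ut AT k l) j) *
      ∑ i : Fin N, (A j i - AT j i) * (ut AT k l) i := by
  unfold ph
  rw [inner_eq, LM_sub]
  rfl

theorem ph_diff {V : Type*} [NormedAddCommGroup V] [NormedSpace ℂ V] {U : Set V}
    {A : V → ℕ → ℕ → ℂ} (hA : ∀ j i, DifferentiableOn ℂ (fun x => A x j i) U) (AT : ℕ → ℕ → ℂ)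
    (k : Fin N) (l : Fin 4) : DifferentiableOn ℂ (fun x => ph AT (A x) k l) U := by
  simp only [ph_eq]
  apply DifferentiableOn.fun_sum
  intro j _
  apply DifferentiableOn.const_mul
  apply DifferentiableOn.fun_sum
  intro i _
  exact ((hA j i).sub_const _).mul_const _

/-- the hypotheses on the base point -/
structure Base (N K : ℕ) (lam : ℝ) (AT : ℕ → ℕ → ℂ) : Prop where
  N0 : 0 < N
  KN : K ≤ N
  lam0 : 0 < lam
  contr : ∀ u : EuclideanSpace ℂ (Fin N), ‖LM AT u‖ ≤ ‖u‖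
  col : ∀ k < K, 1 - lam ≤ ∑ j ∈ Finset.range N, ‖AT j k‖ ^ 2
  row : 1 - lam ≤ ∑ i ∈ Finset.range N, ‖AT 0 i‖ ^ 2

variable {K : ℕ} {lam : ℝ} {AT A : ℕ → ℕ → ℂ}

theorem Base.colN (hb : Base N K lam AT) {k : Fin N} (hk : (k : ℕ) < K) :
    1 - lam ≤ ‖LM AT (EuclideanSpace.single k (1 : ℂ))‖ ^ 2 := by
  rw [EuclideanSpace.norm_sq_eq]
  have h := hb.col k hk
  rw [Finset.sum_range] at h
  simpa only [LM_single] using h

theorem Base.rowN (hb : Base N K lam AT) : 1 - lam ≤ ‖(qv AT : EuclideanSpace ℂ (Fin N))‖ ^ 2 := by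
  rw [EuclideanSpace.norm_sq_eq]
  have h := hb.row
  rw [Finset.sum_range] at h
  refine h.trans (le_of_eq ?_)
  apply Finset.sum_congr rfl
  intro i _
  simp [qv]

theorem gt_re (hb : Base N K lam AT) (hA : ∀ u : EuclideanSpace ℂ (Fin N), ‖LM A u‖ ≤ ‖u‖)
    {k : Fin N} (hk : (k : ℕ) < K) (l : Fin 4) : 1 / 2 ≤ (gt lam AT A k l).re := by
  have h := re_bound hb.contr hA (e := EuclideanSpace.single k (1 : ℂ))
    (e' := EuclideanSpace.single (⟨0, hb.N0⟩ : Fin N) (1 : ℂ)) (by simp) (by simp)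
    (qv_spec hb.N0 AT) (hb.colN hk) hb.rowN (Th_norm l)
  have hl := hb.lam0
  unfold gt
  rw [← Complex.ofReal_inv, Complex.sub_re, Complex.re_ofReal_mul, Complex.one_re]
  have h2 : (ph AT A k l).re ≤ 2 * lam := h
  have h3 : (4 * lam)⁻¹ * (ph AT A k l).re ≤ (4 * lam)⁻¹ * (2 * lam) :=
    mul_le_mul_of_nonneg_left h2 (by positivity)
  have h4 : (4 * lam)⁻¹ * (2 * lam) = 1 / 2 := by
    field_simp
    norm_num
  linarith

theorem gt_slit (hb : Base N K lam AT) (hA : ∀ u : EuclideanSpace ℂ (Fin N), ‖LM A u‖ ≤ ‖u‖)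
    {k : Fin N} (hk : (k : ℕ) < K) (l : Fin 4) : gt lam AT A k l ∈ Complex.slitPlane :=
  Or.inl (by have := gt_re hb hA hk l; linarith)

theorem hp_diff {V : Type*} [NormedAddCommGroup V] [NormedSpace ℂ V] {U : Set V}
    {A : V → ℕ → ℕ → ℂ} (hA : ∀ j i, DifferentiableOn ℂ (fun x => A x j i) U)
    (hb : Base N K lam AT)
    (hc : ∀ x ∈ U, ∀ u : EuclideanSpace ℂ (Fin N), ‖LM (A x) u‖ ≤ ‖u‖) :
    DifferentiableOn ℂ (fun x => hp K lam AT N (A x)) U := by
  unfold hp
  apply DifferentiableOn.fun_neg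
  apply DifferentiableOn.fun_sum
  intro p hp'
  have hk := (Finset.mem_filter.1 hp').2
  have h1 : DifferentiableOn ℂ (fun x => gt lam AT (A x) p.1 p.2) U :=
    ((ph_diff hA AT p.1 p.2).const_mul _).const_sub _
  exact h1.clog (fun x hx => gt_slit hb (hc x hx) hk p.2)

theorem log_ge (hb : Base N K lam AT) (hA : ∀ u : EuclideanSpace ℂ (Fin N), ‖LM A u‖ ≤ ‖u‖)
    {k : Fin N} (hk : (k : ℕ) < K) (l : Fin 4) :
    -Real.log 2 ≤ (Complex.log (gt lam AT A k l)).re := by
  rw [Complex.log_re, ← Real.log_inv]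
  apply Real.log_le_log (by norm_num)
  have h1 := gt_re hb hA hk l
  have h2 := Complex.re_le_norm (gt lam AT A k l)
  norm_num at h1 ⊢
  linarith

theorem card_filter (K : ℕ) :
    ((Finset.univ : Finset (Fin N × Fin 4)).filter (fun p => (p.1 : ℕ) < K)).card ≤ 4 * K := by
  have h1 : (Finset.univ : Finset (Fin N × Fin 4)).filter (fun p => (p.1 : ℕ) < K) ⊆
      ((Finset.univ : Finset (Fin N)).filter (fun i : Fin N => (i : ℕ) < K)) ×ˢ
        (Finset.univ : Finset (Fin 4)) := by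
    intro p hp
    simp only [Finset.mem_filter, Finset.mem_univ, true_and, Finset.mem_product, and_true] at hp ⊢
    exact hp
  refine (Finset.card_le_card h1).trans ?_
  rw [Finset.card_product, Finset.card_univ, Fintype.card_fin, mul_comm]
  apply Nat.mul_le_mul_left
  have h2 : ((Finset.univ : Finset (Fin N)).filter (fun i : Fin N => (i : ℕ) < K)).card ≤
      (Finset.range K).card := by
    apply Finset.card_le_card_of_injOn (fun i : Fin N => (i : ℕ))
    · intro i hi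
      simp only [Finset.coe_filter, Finset.mem_univ, true_and, mem_ofPred_eq] at hi
      simpa using hi
    · intro i _ j _ hij
      exact Fin.ext hij
  rwa [Finset.card_range] at h2

theorem hp_re_le (hb : Base N K lam AT)
    (hA : ∀ u : EuclideanSpace ℂ (Fin N), ‖LM A u‖ ≤ ‖u‖) :
    (hp K lam AT N A).re ≤ 4 * K * Real.log 2 := by
  unfold hp
  rw [Complex.neg_re, Complex.re_sum, neg_le]
  have hl2 : 0 ≤ Real.log 2 := Real.log_nonneg (by norm_num)
  have h1 : ∑ p ∈ (Finset.univ : Finset (Fin N × Fin 4)).filter (fun p => (p.1 : ℕ) < K),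
      (-Real.log 2) ≤ ∑ p ∈ (Finset.univ : Finset (Fin N × Fin 4)).filter
        (fun p => (p.1 : ℕ) < K), (Complex.log (gt lam AT A p.1 p.2)).re :=
    Finset.sum_le_sum fun p hp' => log_ge hb hA (Finset.mem_filter.1 hp').2 p.2
  rw [Finset.sum_const, nsmul_eq_mul] at h1
  have h2 : (((Finset.univ : Finset (Fin N × Fin 4)).filter
      (fun p => (p.1 : ℕ) < K)).card : ℝ) ≤ 4 * K := by
    exact_mod_cast card_filter (N := N) K
  nlinarith

/-- the constant -/
noncomputable def cS (K : ℕ) : ℝ := 4 * (1 + Real.exp (1 + 4 * K * Real.log 2))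

theorem cS_nonneg (K : ℕ) : 0 ≤ cS K := by
  unfold cS
  positivity

/-- the constant -/
noncomputable def cP (K : ℕ) : ℝ := cS K + Real.sqrt (4 + 2 * cS K)

theorem cP_pos (K : ℕ) : 0 < cP K := by
  unfold cP
  have h := cS_nonneg K
  have : 0 < Real.sqrt (4 + 2 * cS K) := Real.sqrt_pos.2 (by linarith)
  linarith

theorem hp_close (hb : Base N K lam AT)
    (hA : ∀ u : EuclideanSpace ℂ (Fin N), ‖LM A u‖ ≤ ‖u‖) (h : -1 ≤ (hp K lam AT N A).re)
    {k : ℕ} (hk : k < K) : ‖A 0 k - AT 0 k‖ ≤ cP K * lam := by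
  have hl := hb.lam0
  have hl2 : 0 ≤ Real.log 2 := Real.log_nonneg (by norm_num)
  set k' : Fin N := ⟨k, hk.trans_le hb.KN⟩ with hk'
  have hkk : (k' : ℕ) < K := hk
  have hph : ∀ l : Fin 4, ‖ph AT A k' l‖ ≤ cS K * lam := by
    intro l
    have hmem : (k', l) ∈ (Finset.univ : Finset (Fin N × Fin 4)).filter
        (fun p => (p.1 : ℕ) < K) := by simp [hkk]
    have h1 : (Complex.log (gt lam AT A k' l)).re ≤ 1 + 4 * K * Real.log 2 := by
      unfold hp at h
      rw [Complex.neg_re, Complex.re_sum, ← Finset.add_sum_erase _ _ hmem] at h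
      have h2 : ∑ p ∈ ((Finset.univ : Finset (Fin N × Fin 4)).filter
          (fun p => (p.1 : ℕ) < K)).erase (k', l), (-Real.log 2) ≤
          ∑ p ∈ ((Finset.univ : Finset (Fin N × Fin 4)).filter
            (fun p => (p.1 : ℕ) < K)).erase (k', l), (Complex.log (gt lam AT A p.1 p.2)).re :=
        Finset.sum_le_sum fun p hp' =>
          log_ge hb hA (Finset.mem_filter.1 (Finset.mem_of_mem_erase hp')).2 p.2
      rw [Finset.sum_const, nsmul_eq_mul] at h2
      have h3 : ((((Finset.univ : Finset (Fin N × Fin 4)).filter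
          (fun p => (p.1 : ℕ) < K)).erase (k', l)).card : ℝ) ≤ 4 * K := by
        exact_mod_cast (Finset.card_le_card (Finset.erase_subset _ _)).trans
          (card_filter (N := N) K)
      simp only at h
      nlinarith
    rw [Complex.log_re] at h1
    have hg0 : 0 < ‖gt lam AT A k' l‖ := by
      have h4 := gt_re hb hA hkk l
      have h5 := Complex.re_le_norm (gt lam AT A k' l)
      linarith
    rw [Real.log_le_iff_le_exp hg0] at h1
    have h6 : ph AT A k' l = ((4 * lam : ℝ) : ℂ) * (1 - gt lam AT A k' l) := by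
      unfold gt
      have : ((4 * lam : ℝ) : ℂ) ≠ 0 := by
        exact_mod_cast (by positivity : (4 * lam : ℝ) ≠ 0)
      field_simp
      ring
    rw [h6, norm_mul, Complex.norm_real, Real.norm_eq_abs, abs_of_pos (by positivity)]
    have h7 : ‖1 - gt lam AT A k' l‖ ≤ 1 + Real.exp (1 + 4 * K * Real.log 2) := by
      refine (norm_sub_le _ _).trans ?_
      rw [norm_one]
      linarith
    calc 4 * lam * ‖1 - gt lam AT A k' l‖ ≤ 4 * lam * (1 + Real.exp (1 + 4 * K * Real.log 2)) :=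
          mul_le_mul_of_nonneg_left h7 (by positivity)
      _ = cS K * lam := by unfold cS; ring
  have h8 := hil hb.contr hA (e := EuclideanSpace.single k' (1 : ℂ))
    (e' := EuclideanSpace.single (⟨0, hb.N0⟩ : Fin N) (1 : ℂ)) (by simp) (by simp)
    (qv_spec hb.N0 AT) (hb.colN hkk) hb.rowN (cS_nonneg K) (by
      rintro θ (rfl | rfl | rfl | rfl)
      · exact hph 0
      · exact hph 1
      · exact hph 2
      · exact hph 3)
  have h9 : inner ℂ (EuclideanSpace.single (⟨0, hb.N0⟩ : Fin N) (1 : ℂ))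
      ((LM A - LM AT : EuclideanSpace ℂ (Fin N) →ₗ[ℂ] EuclideanSpace ℂ (Fin N))
        (EuclideanSpace.single k' (1 : ℂ))) = A 0 k - AT 0 k := by
    rw [LM_sub, inner_eq, Finset.sum_eq_single (⟨0, hb.N0⟩ : Fin N)]
    · rw [LM_single]
      simp [hk']
    · intro i _ hne
      simp [hne]
    · intro h
      exact absurd (Finset.mem_univ _) h
  rw [h9] at h8
  exact h8

end

end Pool.Agent.K4H45.LL
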