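import Mathlib
import Pool.Agent.K4H45.LL.Clo
import Pool.Agent.K4H45.LL.Pk

/-! # The linear peak function in the connectedness locus -/

set_option autoImplicit false

open Topology Filter Metric Set Polynomial MeasureTheory
open Pool.Agent.H713R3.ZA Pool.Agent.H713R2 Pool.Agent.H713R2.AR

namespace Pool.Agent.K4H45.LL

/-- Cauchy's estimate -/
theorem tc_le {F : ℂ → ℂ} {s r0 E : ℝ} (hr0 : 0 < r0) (hlt : r0 < s)
    (hF : DifferentiableOn ℂ F (ball 0 s)) (h : ∀ t : ℂ, ‖t‖ = r0 → ‖F t‖ ≤ E) (k : ℕ) :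
    ‖tc F k‖ ≤ E / r0 ^ k := by
  have hd : DiffContOnCl ℂ F (ball 0 r0) := by
    apply DifferentiableOn.diffContOnCl
    rw [closure_ball (0 : ℂ) hr0.ne']
    exact hF.mono (closedBall_subset_ball hlt)
  have h1 := Complex.norm_iteratedDeriv_le_of_forall_mem_sphere_norm_le k hr0 hd
    (C := E) (fun z hz => h z (mem_sphere_zero_iff_norm.1 hz))
  unfold tc
  rw [norm_mul, norm_inv, Complex.norm_natCast]
  have hf : (0 : ℝ) < (k.factorial : ℝ) := by exact_mod_cast Nat.factorial_pos _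
  rw [inv_mul_le_iff₀ hf]
  refine h1.trans (le_of_eq ?_)
  field_simp

/-- bound for the derivatives of the Faber polynomials -/
theorem FB_bound (Mt R₀ : ℝ) (hMt : 0 ≤ Mt) (hR₀ : 0 ≤ R₀) (m : ℕ) : ∃ D : ℝ, 0 ≤ D ∧
    ∀ g : ℂ → ℂ, (∀ i ≤ m, ∀ j ≤ m, ‖tc (fun t => g t ^ i) j‖ ≤ Mt) → ∀ z : ℂ, ‖z‖ ≤ R₀ →
      ‖(derivative (FB g m)).eval z‖ ≤ D := by
  induction m using Nat.strong_induction_on with
  | _ m ih =>
    have h1 : ∀ i : Fin m, ∃ D : ℝ, 0 ≤ D ∧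
        ∀ g : ℂ → ℂ, (∀ l ≤ (i : ℕ), ∀ j ≤ (i : ℕ), ‖tc (fun t => g t ^ l) j‖ ≤ Mt) →
        ∀ z : ℂ, ‖z‖ ≤ R₀ → ‖(derivative (FB g i)).eval z‖ ≤ D := fun i => ih i i.2
    choose D hD0 hD using h1
    refine ⟨m * R₀ ^ (m - 1) + ∑ i : Fin m, Mt * D i, ?_, ?_⟩
    · have : 0 ≤ ∑ i : Fin m, Mt * D i := Finset.sum_nonneg fun i _ => mul_nonneg hMt (hD0 i)
      positivity
    · intro g hg z hz
      rw [FB, derivative_sub, derivative_X_pow, derivative_sum, eval_sub, eval_finsetSum]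
      refine (norm_sub_le _ _).trans (add_le_add ?_ ((norm_sum_le _ _).trans ?_))
      · rw [eval_mul, eval_C, eval_pow, eval_X, norm_mul, norm_pow, Complex.norm_natCast]
        exact mul_le_mul_of_nonneg_left (pow_le_pow_left₀ (norm_nonneg _) hz _)
          (Nat.cast_nonneg _)
      · apply Finset.sum_le_sum
        intro i _
        have hi := i.2
        rw [derivative_C_mul, eval_mul, eval_C, norm_mul]
        exact mul_le_mul (hg m le_rfl _ (by omega))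
          (hD i g (fun l hl j hj => hg l (by omega) j (by omega)) z hz) (norm_nonneg _) hMt

/-- holomorphic dependence of the Grunsky coefficients -/
theorem tc_HF_diff {E : Type*} [NormedAddCommGroup E] [NormedSpace ℂ E] {U : Set E}
    (hU : IsOpen U) {G : E × ℂ → ℂ} {s : ℝ} (hs : 0 < s)
    (hG : DifferentiableOn ℂ G (U ×ˢ ball (0 : ℂ) s)) (m : ℕ) :
    ∀ k : ℕ, DifferentiableOn ℂ (fun x => tc (HF (fun t => G (x, t)) m) k) U := by
  induction m using Nat.strong_induction_on with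
  | _ m ih =>
    intro k
    have hgx : ∀ x ∈ U, DifferentiableOn ℂ (fun t => G (x, t)) (ball 0 s) := fun x hx =>
      hG.comp (by fun_prop) fun t ht => ⟨hx, ht⟩
    have hp : ∀ l : ℕ, DifferentiableOn ℂ (fun x => tc (fun t => G (x, t) ^ m) l) U := fun l =>
      W177.BM.tc_diff hU (G := fun p => G p ^ m) hs (hG.pow m) l
    have h1 : DifferentiableOn ℂ (fun x => tc (fun t => G (x, t) ^ m) k -
        ∑ i : Fin m, tc (fun t => G (x, t) ^ m) (m - (i : ℕ)) *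
        (if m - (i : ℕ) ≤ k then tc (HF (fun t => G (x, t)) i) (k - (m - (i : ℕ))) else 0)) U := by
      apply (hp k).sub
      apply DifferentiableOn.fun_sum
      intro i _
      apply (hp _).mul
      split_ifs with h
      · exact ih i i.2 _
      · exact differentiableOn_const _
    exact h1.congr fun x hx => tc_HF hs (hgx x hx) m k

theorem mu_diff {E : Type*} [NormedAddCommGroup E] [NormedSpace ℂ E] {U : Set E}
    (hU : IsOpen U) {G : E × ℂ → ℂ} {s : ℝ} (hs : 0 < s)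
    (hG : DifferentiableOn ℂ G (U ×ˢ ball (0 : ℂ) s)) (r : ℝ) (j i : ℕ) :
    DifferentiableOn ℂ (fun x => mu (fun t => G (x, t)) r j i) U := by
  unfold mu gr
  exact (tc_HF_diff hU hs hG _ _).const_mul _

/-- The linear peak function. -/
theorem pkl (h : W820.BM.S_EXT) (a : ℂ) (n : ℕ) (B : ℝ) (ha : a ≠ 0) (hn : 1 ≤ n) (hB : 0 < B) :
    ∃ R₀ : ℝ, ∀ R : ℝ, R₀ ≤ R → ∃ C : ℝ, 0 < C ∧ ∀ xT ∈ ball (0 : PE n) B,
      (∀ i, xT (some i) ∈ KJ (fam a n xT)) → volume (KJ (fam a n xT)) < ⊤ ∧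
      ∀ η : ℝ, 0 < η → ∃ (N : ℕ) (h : PE n → ℂ), IsOpen (W820.BM.OmN a n N B R) ∧
        xT ∈ W820.BM.OmN a n N B R ∧ DifferentiableOn ℂ h (W820.BM.OmN a n N B R) ∧ h xT = 0 ∧
        ∀ x ∈ W820.BM.OmN a n N B R, ∑ i : Fin n, x (some i) = ∑ i : Fin n, xT (some i) →
          (h x).re ≤ 8 * n * Real.log 2 ∧ (-1 ≤ (h x).re →
          ∀ j : ℕ, ‖(fam a n x).coeff j - (fam a n xT).coeff j‖ ≤
            C * ((volume (KJ (fam a n xT))).toReal + η)) := by
  obtain ⟨Rb, C₁, R₁, R₃, ψ, φ, hb⟩ := exists_boett bsum_holds inv_holds ha hn hB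
  obtain ⟨A, hA1, hA⟩ := exists_coeff_bound a n B
  have k1 := hb.hR; have k2 := hb.hC; have k3 := hb.hR₁; have k4 := hb.hR₃
  have ha0 : 0 < ‖a‖ := norm_pos_iff.2 ha
  refine ⟨R₃, fun R hR => ?_⟩
  obtain ⟨R₄, hR₄⟩ : ∃ R₄ : ℝ, R₄ = R + C₁ := ⟨_, rfl⟩
  obtain ⟨ρ0, hρ0p, hρ01, hρ0a⟩ : ∃ ρ0 : ℝ, 0 < ρ0 ∧ ρ0 ≤ 1 ∧ ‖a‖ * ρ0 ≤ 1 := by
    refine ⟨1 / (‖a‖ + 1), by positivity, ?_, ?_⟩
    · rw [div_le_one (by positivity)]
      linarith
    · rw [mul_one_div, div_le_one (by positivity)]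
      linarith
  obtain ⟨ρM, hρM, hρM1⟩ : ∃ ρM : ℝ, ρM = max R₁ (R₄ + 1) + 1 ∧ 1 ≤ ρM := by
    refine ⟨_, rfl, ?_⟩
    have := le_max_left R₁ (R₄ + 1)
    linarith
  have hρMp : 0 < ρM := by linarith
  obtain ⟨Cc, hCc0, hclose⟩ := closeL ha hn hb hA hρMp
  -- the bound of the Faber polynomials
  obtain ⟨r1, hr1d⟩ : ∃ r1 : ℝ, r1 = ρM + R₁ + 1 := ⟨_, rfl⟩
  have hr10 : 0 < r1 := by linarith
  have hr11 : 1 ≤ r1 := by linarith
  obtain ⟨Mt, hMtd⟩ : ∃ Mt : ℝ, Mt = (1 + C₁) ^ (2 * n) * r1 ^ (2 * n) := ⟨_, rfl⟩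
  have hMt0 : 0 ≤ Mt := by rw [hMtd]; positivity
  obtain ⟨Rz, hRzd⟩ : ∃ Rz : ℝ, Rz = max Rb (R₄ + 1 + C₁) := ⟨_, rfl⟩
  have hRz0 : 0 ≤ Rz := by
    have := le_max_left Rb (R₄ + 1 + C₁)
    linarith
  choose Dk hDk0 hDk using fun k : ℕ => FB_bound Mt Rz hMt0 hRz0 (k + 1)
  obtain ⟨Cl, hCl0, hCl⟩ : ∃ Cl : ℝ, 0 < Cl ∧ ∀ k < 2 * n,
      wt (1 / ρ0) k ^ 2 / Real.pi * Dk k ^ 2 ≤ Cl := by
    refine ⟨∑ k ∈ Finset.range (2 * n), wt (1 / ρ0) k ^ 2 / Real.pi * Dk k ^ 2 + 1, ?_, ?_⟩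
    · have : 0 ≤ ∑ k ∈ Finset.range (2 * n), wt (1 / ρ0) k ^ 2 / Real.pi * Dk k ^ 2 :=
        Finset.sum_nonneg fun k _ => by positivity
      linarith
    · intro k hk
      have := Finset.single_le_sum
        (f := fun k => wt (1 / ρ0) k ^ 2 / Real.pi * Dk k ^ 2)
        (fun k _ => by positivity) (Finset.mem_range.2 hk)
      linarith
  refine ⟨Cc * (cP (2 * n) * Cl * ρM ^ (2 * n + 1)), by
    have := cP_pos (2 * n)
    positivity, fun xT hxT hKJ => ⟨W177.BM.KJ_fin hb hxT, fun η hη => ?_⟩⟩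
  set M0 : ℝ := (volume (KJ (fam a n xT))).toReal with hM0
  have hM00 : 0 ≤ M0 := ENNReal.toReal_nonneg
  obtain ⟨N, hN⟩ := W177.BM.exists_vol hb hxT (show 0 < η / 4 by positivity) (R₄ + 1 + C₁)
  obtain ⟨ρ4, ρ5, hr1', hr2, hr3, hr4, hr5⟩ := W177.BM.exists_radii hb hn
    (show 1 < R₄ by linarith) hρ01 hρ0a N
  rw [← hρM] at hr3
  have hρ4 : 0 < ρ4 := by linarith
  have hρ5 : 0 < ρ5 := by linarith
  set s : ℝ := ρ4⁻¹ with hs
  set s' : ℝ := ρ5⁻¹ with hs'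
  have hs0 : 0 < s := inv_pos.2 hρ4
  have hs'0 : 0 < s' := inv_pos.2 hρ5
  have hlt : s' < s := (inv_lt_inv₀ hρ5 hρ4).2 hr2
  have hρMs : ρM⁻¹ ≤ s' := inv_anti₀ hρ5 hr3
  have hs'ρ : s' ≤ 1 / ρ0 := by
    rw [hs', one_div]
    exact inv_anti₀ hρ0p (by linarith)
  have hnorm : ∀ {ρ : ℝ}, 0 < ρ → ‖(fun w : ℂ => a * w ^ (n + 1))^[N] (((ρ⁻¹ : ℝ) : ℂ)⁻¹)‖ =
      (W177.BM.qm a n)^[N] ρ := by
    intro ρ hρ
    rw [W177.BM.norm_QQ, norm_inv, Complex.norm_real, Real.norm_eq_abs,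
      abs_of_pos (inv_pos.2 hρ), inv_inv]
  obtain ⟨G, hG⟩ := h a n N B Rb C₁ R₁ R₃ R R₄ s ψ φ ha hn hb hR (by rw [hR₄]) hs0
    (by rw [hs, hnorm hρ4, hr4])
  set Om := W820.BM.OmN a n N B R with hOm
  have hOo : IsOpen Om := W177.BM.isOpen_OmN a n N B R
  have hxTO : xT ∈ Om := ⟨hxT, fun i j _ _ => by
    have h1 : fx a n xT = fun w => (fam a n xT).eval w := rfl
    have h2 := lt_of_mem_KJ hb hxT (hKJ i) j
    linarith⟩
  have hext : ∀ x ∈ Om, IsExt s (fun t => G (x, t)) := by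
    intro x hx
    refine ⟨?_, hG.zero x hx, ?_⟩
    · exact hG.diff.comp (by fun_prop) fun t ht => ⟨hx, ht⟩
    · intro t ht u hu ht0 hu0 htu
      exact hG.inj x hx t ht u hu ht0 hu0 htu
  -- the complement at `xT`
  have hcompl : (UU (fun t => G (xT, t)) s')ᶜ ⊆ {z : ℂ | ‖(fx a n xT)^[N] z‖ ≤ R₄ + 1 + C₁} := by
    intro z hz
    rw [mem_ofPred_eq]
    by_contra hcon
    rw [not_le] at hcon
    apply hz
    obtain ⟨t, ht1, ht2, ht3⟩ := hG.surj xT hxTO s' z hs'0 hlt.le (by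
      rw [hs', hnorm hρ5, hr5]
      exact hcon)
    exact ⟨t, ⟨ht1, ht2⟩, ht3⟩
  have hcompl2 : ∀ z ∈ (UU (fun t => G (xT, t)) s')ᶜ, ‖z‖ ≤ Rz := by
    intro z hz
    have h1 := hcompl hz
    rw [mem_ofPred_eq] at h1
    by_contra hcon
    rw [not_le, hRzd, max_lt_iff] at hcon
    have h2 := iter_large hb hxT hcon.1.le N
    linarith
  have hVT : (volume (UU (fun t => G (xT, t)) s')ᶜ).toReal ≤ M0 + η / 4 := by
    have h2 := (measure_mono (μ := (volume : Measure ℂ)) hcompl).trans hN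
    have h3 := W177.BM.KJ_fin hb hxT
    have h4 : volume (KJ (fam a n xT)) + ENNReal.ofReal (η / 4) = ENNReal.ofReal (M0 + η / 4) := by
      rw [ENNReal.ofReal_add hM00 (by positivity), hM0, ENNReal.ofReal_toReal h3.ne]
    rw [h4] at h2
    exact ENNReal.toReal_le_of_le_ofReal (by positivity) h2
  -- the Taylor coefficients of the powers
  have hMt : ∀ i ≤ 2 * n, ∀ j ≤ 2 * n, ‖tc (fun t => G (xT, t) ^ i) j‖ ≤ Mt := by
    intro i hi j hj
    have hr1s : r1⁻¹ < s := by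
      have : r1⁻¹ ≤ ρM⁻¹ := inv_anti₀ hρMp (by linarith)
      linarith
    have h1 := tc_le (F := fun t => G (xT, t) ^ i) (inv_pos.2 hr10) hr1s
      ((hext xT hxTO).diff.pow i) (E := (1 + C₁) ^ i) (by
        intro t ht
        have ht0 : t ≠ 0 := by
          intro h
          rw [h, norm_zero] at ht
          have := inv_pos.2 hr10
          linarith
        have hti : ‖t⁻¹‖ = r1 := by rw [norm_inv, ht, inv_inv]
        have n1 := hG.near xT hxTO t ht0 (by rw [ht]; exact hr1s) (by rw [hti]; linarith)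
        have n2 := hb.ψc xT hxT t⁻¹ (by rw [hti]; linarith)
        have n3 : G (xT, t) = t * ψ (xT, t⁻¹) := by
          rw [← n1]
          field_simp
        rw [norm_pow]
        apply pow_le_pow_left₀ (norm_nonneg _)
        rw [n3, norm_mul, ht]
        have n4 : ‖ψ (xT, t⁻¹)‖ ≤ r1 + C₁ := by
          have := norm_le_norm_add_norm_sub' (ψ (xT, t⁻¹)) t⁻¹
          linarith
        calc r1⁻¹ * ‖ψ (xT, t⁻¹)‖ ≤ r1⁻¹ * (r1 + C₁) :=
              mul_le_mul_of_nonneg_left n4 (inv_pos.2 hr10).le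
          _ = 1 + r1⁻¹ * C₁ := by field_simp
          _ ≤ 1 + 1 * C₁ := by
              have : r1⁻¹ ≤ 1 := inv_le_one_of_one_le₀ hr11
              nlinarith
          _ = 1 + C₁ := by ring) j
    rw [inv_pow, div_inv_eq_mul] at h1
    refine h1.trans ?_
    rw [hMtd]
    exact mul_le_mul (pow_le_pow_right₀ (by linarith) hi) (pow_le_pow_right₀ hr11 hj)
      (by positivity) (by positivity)
  -- the defects
  obtain ⟨lam, hlamd⟩ : ∃ lam : ℝ, lam = Cl * (M0 + η) := ⟨_, rfl⟩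
  have hlam0 : 0 < lam := by rw [hlamd]; positivity
  have hwt : ∀ k, wt s' k ≤ wt (1 / ρ0) k := by
    intro k
    unfold wt
    gcongr
  have hcolumn : ∀ k < 2 * n, ∀ᶠ M : ℕ in atTop, 1 - lam ≤
      ∑ j ∈ Finset.range M, ‖mu (fun t => G (xT, t)) s' j k‖ ^ 2 := by
    intro k hk
    have h1 := (column hs'0 hlt (hext xT hxTO) k).tendsto_sum_nat
    set J : ℝ := ∫ z in (UU (fun t => G (xT, t)) s')ᶜ,
      ‖(derivative (FB (fun t => G (xT, t)) (k + 1))).eval z‖ ^ 2 with hJ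
    have hfin := (W177.BM.area2 hs'0 hlt (hext xT hxTO)).1
    have hJle : J ≤ Dk k ^ 2 * (volume (UU (fun t => G (xT, t)) s')ᶜ).toReal := by
      have h2 : ∀ z ∈ (UU (fun t => G (xT, t)) s')ᶜ,
          ‖‖(derivative (FB (fun t => G (xT, t)) (k + 1))).eval z‖ ^ 2‖ ≤ Dk k ^ 2 := by
        intro z hz
        rw [norm_pow, norm_norm]
        exact pow_le_pow_left₀ (norm_nonneg _) (hDk k _ (fun i hi j hj =>
          hMt i (by omega) j (by omega)) z (hcompl2 z hz)) 2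
      have h3 := norm_setIntegral_le_of_norm_le_const (μ := (volume : Measure ℂ)) hfin h2
      exact (le_abs_self _).trans h3
    have h2 : 1 - lam < 1 - wt s' k ^ 2 / Real.pi * J := by
      have hwp := wt_pos hs'0 k
      have h3 : wt s' k ^ 2 / Real.pi * J ≤ wt (1 / ρ0) k ^ 2 / Real.pi *
          (Dk k ^ 2 * (M0 + η / 4)) := by
        have h4 : wt s' k ^ 2 ≤ wt (1 / ρ0) k ^ 2 := pow_le_pow_left₀ hwp.le (hwt k) 2
        have h5 : J ≤ Dk k ^ 2 * (M0 + η / 4) :=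
          hJle.trans (mul_le_mul_of_nonneg_left hVT (sq_nonneg _))
        have h6 : 0 ≤ J := integral_nonneg fun z => by positivity
        gcongr
      have h7 : wt (1 / ρ0) k ^ 2 / Real.pi * (Dk k ^ 2 * (M0 + η / 4)) ≤ Cl * (M0 + η / 4) := by
        rw [← mul_assoc]
        exact mul_le_mul_of_nonneg_right (hCl k hk) (by positivity)
      have h8 : Cl * (M0 + η / 4) < lam := by
        rw [hlamd]
        exact mul_lt_mul_of_pos_left (by linarith) hCl0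
      linarith
    exact (h1.eventually_const_lt h2).mono fun M hM => hM.le
  obtain ⟨M, hM1, hM2⟩ : ∃ M : ℕ, (2 * n ≤ M) ∧ ∀ k ∈ Finset.range (2 * n), 1 - lam ≤
      ∑ j ∈ Finset.range M, ‖mu (fun t => G (xT, t)) s' j k‖ ^ 2 := by
    have h1 : ∀ᶠ M : ℕ in atTop, ∀ k ∈ Finset.range (2 * n), 1 - lam ≤
        ∑ j ∈ Finset.range M, ‖mu (fun t => G (xT, t)) s' j k‖ ^ 2 := by
      rw [Filter.eventually_all_finset]
      exact fun k hk => hcolumn k (Finset.mem_range.1 hk)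
    obtain ⟨M, h2, h3⟩ := ((eventually_ge_atTop (2 * n)).and h1).exists
    exact ⟨M, h2, h3⟩
  have hbase : Base M (2 * n) lam (mu (fun t => G (xT, t)) s') := by
    refine ⟨by omega, hM1, hlam0, fun u => LM_contr hs'0 hlt (hext xT hxTO) u,
      fun k hk => hM2 k (Finset.mem_range.2 hk), ?_⟩
    have h1 := hM2 0 (Finset.mem_range.2 (by omega))
    refine h1.trans (le_of_eq ?_)
    apply Finset.sum_congr rfl
    intro i _
    rw [mu_symm hs0 (hext xT hxTO).diff (hext xT hxTO).zero i]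
  have hcontr : ∀ x ∈ Om, ∀ u : EuclideanSpace ℂ (Fin M),
      ‖LM (mu (fun t => G (x, t)) s') u‖ ≤ ‖u‖ := fun x hx u =>
    LM_contr hs'0 hlt (hext x hx) u
  refine ⟨N, fun x => hp (2 * n) lam (mu (fun t => G (xT, t)) s') M (mu (fun t => G (x, t)) s'),
    hOo, hxTO, ?_, hp_self _ _ _ _, ?_⟩
  · exact hp_diff (A := fun x => mu (fun t => G (x, t)) s')
      (fun j i => mu_diff hOo hs0 hG.diff s' j i) hbase hcontr
  · intro x hx hsum
    constructor
    · refine (hp_re_le hbase (hcontr x hx)).trans (le_of_eq ?_)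
      push_cast
      ring
    · intro hre j
      have hδ : ∀ k < 2 * n, ‖tc (fun t => G (x, t)) (k + 2) - tc (fun t => G (xT, t)) (k + 2)‖ ≤
          cP (2 * n) * lam * ρM ^ (2 * n + 1) := by
        intro k hk
        have h1 := hp_close hbase (hcontr x hx) hre hk
        rw [mu_row hs0 (hext x hx).diff (hext x hx).zero,
          mu_row hs0 (hext xT hxTO).diff (hext xT hxTO).zero, ← mul_sub, norm_mul,
          Complex.norm_real, Real.norm_eq_abs] at h1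
        set Δ : ℝ := ‖tc (fun t => G (x, t)) (k + 2) - tc (fun t => G (xT, t)) (k + 2)‖ with hΔ
        have hΔ0 : 0 ≤ Δ := norm_nonneg _
        have hw0 : wt s' 0 * wt s' k * ((k : ℝ) + 1) = s' ^ (k + 2) * Real.sqrt (k + 1) := by
          unfold wt
          have hsq : Real.sqrt ((k : ℝ) + 1) * Real.sqrt ((k : ℝ) + 1) = (k : ℝ) + 1 :=
            Real.mul_self_sqrt (by positivity)
          have hsp : 0 < Real.sqrt ((k : ℝ) + 1) := Real.sqrt_pos.2 (by positivity)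
          rw [Nat.cast_zero, zero_add, zero_add, Real.sqrt_one, pow_one, div_one]
          rw [← mul_div_assoc, div_mul_eq_mul_div, div_eq_iff hsp.ne', mul_assoc (s' ^ (k + 2)),
            hsq, show k + 2 = (k + 1) + 1 by ring, pow_succ s' (k + 1)]
          ring
        have hlow : (ρM ^ (2 * n + 1))⁻¹ ≤ wt s' 0 * wt s' k * ((k : ℝ) + 1) := by
          rw [hw0]
          have h2 : (ρM⁻¹) ^ (k + 2) ≤ s' ^ (k + 2) :=
            pow_le_pow_left₀ (inv_pos.2 hρMp).le hρMs _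
          have h3 : (ρM ^ (2 * n + 1))⁻¹ ≤ (ρM⁻¹) ^ (k + 2) := by
            rw [inv_pow]
            exact inv_anti₀ (by positivity) (pow_le_pow_right₀ hρM1 (by omega))
          have h4 : 1 ≤ Real.sqrt ((k : ℝ) + 1) := by
            rw [Real.one_le_sqrt]
            have : (0 : ℝ) ≤ k := Nat.cast_nonneg k
            linarith
          calc (ρM ^ (2 * n + 1))⁻¹ ≤ s' ^ (k + 2) := h3.trans h2
            _ ≤ s' ^ (k + 2) * Real.sqrt ((k : ℝ) + 1) :=
              le_mul_of_one_le_right (by positivity) h4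
        have hwp : 0 ≤ wt s' 0 * wt s' k * ((k : ℝ) + 1) :=
          le_trans (by positivity) hlow
        rw [abs_of_nonneg hwp] at h1
        have h5 : (ρM ^ (2 * n + 1))⁻¹ * Δ ≤ cP (2 * n) * lam :=
          (mul_le_mul_of_nonneg_right hlow hΔ0).trans h1
        rw [inv_mul_le_iff₀ (by positivity)] at h5
        linarith
      have hcp := cP_pos (2 * n)
      have h6 := hclose N R R₄ s G hG (by linarith) x hx xT hxTO hsum _ (by positivity) hδ j
      refine h6.trans (le_of_eq ?_)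
      rw [hlamd]
      ring

end Pool.Agent.K4H45.LL
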