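import Mathlib
import Pool.Agent.K4H45.LL.PKL
import Pool.Agent.K4H45.SB.Main

/-! # The linear law -/

set_option autoImplicit false

open Topology Filter Metric Set Polynomial MeasureTheory
open Pool.Agent.H713R3.ZA Pool.Agent.W820.BM

namespace Pool.Agent.K4H45.LL

theorem exists_eta {C V ε : ℝ} (hC : 0 < C) (h : C * V < ε) : ∃ η : ℝ, 0 < η ∧ C * (V + η) < ε := by
  refine ⟨(ε - C * V) / (2 * C), by
    have : 0 < ε - C * V := by linarith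
    positivity, ?_⟩
  have h1 : C * (V + (ε - C * V) / (2 * C)) = C * V + (ε - C * V) / 2 := by
    field_simp
  rw [h1]
  linarith

/-- Hyperbolic polynomials of every type at the distance `C * area`. -/
theorem lin_types {a : ℂ} (ha : a ≠ 0) {n : ℕ} (hn : 1 ≤ n) {c₀ : ℝ} (hc₀ : 0 ≤ c₀) :
    ∃ C : ℝ, 0 < C ∧ ∀ xT : PE n, ‖∑ i : Fin n, xT (some i)‖ ≤ c₀ →
      (∀ i, xT (some i) ∈ KJ (fam a n xT)) → volume (KJ (fam a n xT)) < ⊤ ∧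
      ∀ ε : ℝ, C * (volume (KJ (fam a n xT))).toReal < ε →
      ∀ (k : ℕ) (τ : Fin n → Option (Fin k)), (∀ j, ∃ i, τ i = some j) → ∀ N₀ : ℕ,
      ∃ (x : PE n) (p : Fin k → ℕ) (z : Fin k → ℂ) (r : Fin k → Fin n),
        (∀ j : ℕ, ‖(fam a n x).coeff j - (fam a n xT).coeff j‖ < ε) ∧
        ∑ i : Fin n, x (some i) = ∑ i : Fin n, xT (some i) ∧ Concl a n k τ N₀ x p z r := by
  obtain ⟨B, hB, R₂, heng⟩ := Pool.Agent.K4H45.SB.eng ha hn hc₀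
  obtain ⟨Rk, hpk⟩ := pkl ext_holds a n B ha hn hB
  obtain ⟨C, hC, hpk⟩ := hpk (max Rk R₂) (le_max_left _ _)
  refine ⟨C, hC, fun xT hsum hcrit => ?_⟩
  obtain ⟨hxB, -, heng⟩ := heng (max Rk R₂) (le_max_right _ _) xT hsum hcrit
  obtain ⟨hvol, hpk⟩ := hpk xT (mem_ball_zero_iff.mpr hxB) hcrit
  refine ⟨hvol, fun ε hε k τ hτ N₀ => ?_⟩
  obtain ⟨η, hη, hηε⟩ := exists_eta hC hε
  obtain ⟨N, h, -, hxTO, hdh, h0, hh⟩ := hpk η hη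
  obtain ⟨x, p, z, r, hxO, hxs, hre, hc⟩ := heng N h (8 * n * Real.log 2) 1 hdh h0
    (by positivity) one_pos (fun x hx hs => (hh x hx hs).1) k τ hτ N₀
  exact ⟨x, p, z, r, fun j => ((hh x hxO hxs).2 hre j).trans_lt hηε, hxs, hc⟩

/-- The distance to the Shilov boundary is at most `C * area`. -/
theorem lin_shilov {a : ℂ} (ha : a ≠ 0) {n : ℕ} (hn : 1 ≤ n) {c₀ : ℝ} (hc₀ : 0 ≤ c₀) :
    ∃ C : ℝ, 0 < C ∧ ∀ s : ℂ, ‖s‖ ≤ c₀ → ∀ x ∈ SB.MC a n s, volume (KJ (fam a n x)) < ⊤ ∧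
      ∀ ε : ℝ, C * (volume (KJ (fam a n x))).toReal < ε →
        ∃ y ∈ SB.Sh (SB.MC a n s), ∀ j : ℕ, ‖(fam a n y).coeff j - (fam a n x).coeff j‖ < ε := by
  obtain ⟨B, hB, R₂, heng⟩ := Pool.Agent.K4H45.SB.eng ha hn hc₀
  obtain ⟨Rk, hpk⟩ := pkl ext_holds a n B ha hn hB
  obtain ⟨C, hC, hpk⟩ := hpk (max Rk R₂) (le_max_left _ _)
  refine ⟨C, hC, fun s hs x hx => ?_⟩
  have hengM : ∀ y ∈ SB.MC a n s, ‖y‖ < B ∧
      ∀ i l, ‖(fx a n y)^[l] (y (some i))‖ < max Rk R₂ := by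
    intro y hy
    obtain ⟨h1, h2, -⟩ := heng (max Rk R₂) (le_max_right _ _) y (by rw [hy.1]; exact hs) hy.2
    exact ⟨h1, h2⟩
  have hMO : ∀ N, SB.MC a n s ⊆ OmN a n N B (max Rk R₂) := by
    intro N y hy
    obtain ⟨h1, h2⟩ := hengM y hy
    exact ⟨mem_ball_zero_iff.mpr h1, fun i j _ _ => h2 i j⟩
  obtain ⟨hvol, hpk⟩ := hpk x (mem_ball_zero_iff.mpr (hengM x hx).1) hx.2
  refine ⟨hvol, fun ε hε => ?_⟩
  obtain ⟨η, hη, hηε⟩ := exists_eta hC hε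
  obtain ⟨N, F, hΩ, -, hF, hFx, hFM⟩ := hpk η hη
  have hbd := SB.sh_bd (SB.mc_compact ha hn s) (SB.mc_nonempty a hn s)
  obtain ⟨y, hy, hle⟩ := hbd.2.2 (OmN a n N B (max Rk R₂)) (fun y => Complex.exp (F y)) hΩ
    (hMO N) hF.cexp x hx
  refine ⟨y, hy, fun j => ?_⟩
  have hyM := hy.1
  rw [hFx, Complex.norm_exp, Complex.norm_exp, Real.exp_le_exp, Complex.zero_re] at hle
  exact ((hFM y (hMO N hyM) (by rw [hyM.1, hx.1])).2 (by linarith) j).trans_lt hηε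

end Pool.Agent.K4H45.LL
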