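import Mathlib
import Pool.Agent.K4H45.LL.Gru2

/-! # Schwarz's lemma for an entry of a holomorphic family of contractions -/

set_option autoImplicit false

open Topology Filter Metric Set Polynomial MeasureTheory
open Pool.Agent.H713R2 Pool.Agent.H713R2.AR

namespace Pool.Agent.K4H45.LL

theorem parseval_norm {H : ℂ → ℂ} {R r : ℝ} (hH : DifferentiableOn ℂ H (ball 0 R)) (hr : 0 < r)
    (hrR : r < R) : HasSum (fun k : ℕ => 2 * Real.pi * (‖tc H k‖ ^ 2 * r ^ (2 * k)))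
      (∫ θ in (-Real.pi)..Real.pi, ‖H (circleMap 0 r θ)‖ ^ 2) := by
  have h := parseval_tc hH hH hr hrR
  have e1 : (fun k : ℕ => 2 * (Real.pi : ℂ) * ((starRingEnd ℂ) (tc H k) * tc H k * (r : ℂ) ^ (2 * k)))
      = fun k : ℕ => ((2 * Real.pi * (‖tc H k‖ ^ 2 * r ^ (2 * k)) : ℝ) : ℂ) := by
    funext k
    rw [Complex.conj_mul']
    push_cast
    ring
  have e2 : (∫ θ in (-Real.pi)..Real.pi, (starRingEnd ℂ) (H (circleMap 0 r θ)) *
      H (circleMap 0 r θ)) = ((∫ θ in (-Real.pi)..Real.pi, ‖H (circleMap 0 r θ)‖ ^ 2 : ℝ) : ℂ) := by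
    rw [← intervalIntegral.integral_ofReal]
    congr 1
    funext θ
    rw [Complex.conj_mul']
    push_cast
    rfl
  rw [e1, e2] at h
  exact Complex.hasSum_ofReal.1 h

theorem two_terms {H : ℂ → ℂ} {R r : ℝ} (hH : DifferentiableOn ℂ H (ball 0 R)) (hr : 0 < r)
    (hrR : r < R) : 2 * Real.pi * (‖tc H 0‖ ^ 2 + r ^ 2 * ‖tc H 1‖ ^ 2) ≤
      ∫ θ in (-Real.pi)..Real.pi, ‖H (circleMap 0 r θ)‖ ^ 2 := by
  have h := sum_le_hasSum (Finset.range 2) (fun j _ => by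
    have := Real.pi_pos
    positivity) (parseval_norm hH hr hrR)
  rw [Finset.sum_range_succ, Finset.sum_range_one] at h
  refine le_trans (le_of_eq ?_) h
  ring

theorem one_term {H : ℂ → ℂ} {R r : ℝ} (hH : DifferentiableOn ℂ H (ball 0 R)) (hr : 0 < r)
    (hrR : r < R) : 2 * Real.pi * ‖tc H 0‖ ^ 2 ≤
      ∫ θ in (-Real.pi)..Real.pi, ‖H (circleMap 0 r θ)‖ ^ 2 := by
  refine le_trans ?_ (two_terms hH hr hrR)
  have := Real.pi_pos
  have : 0 ≤ 2 * Real.pi * (r ^ 2 * ‖tc H 1‖ ^ 2) := by positivity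
  linarith

theorem tc_lin (u v : ℂ) : ∀ k : ℕ, tc (fun t : ℂ => u + t * v) k =
    if k = 0 then u else if k = 1 then v else 0 := by
  have h := tc_unique (a := fun k => if k = 0 then u else if k = 1 then v else 0)
    (F := fun t : ℂ => u + t * v) one_pos (by fun_prop) ?_
  · intro k
    rw [← h]
  · refine Filter.Eventually.of_forall fun t => ?_
    have h1 : HasSum (fun k : ℕ => (if k = 0 then u else if k = 1 then v else 0) * t ^ k)
        (∑ k ∈ Finset.range 2, (if k = 0 then u else if k = 1 then v else 0) * t ^ k) := by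
      apply hasSum_sum_of_ne_finset_zero
      intro k hk
      rw [Finset.mem_range, not_lt] at hk
      rw [if_neg (by omega), if_neg (by omega), zero_mul]
    rw [Finset.sum_range_succ, Finset.sum_range_one] at h1
    simpa [mul_comm] using h1

theorem lin_int (u v : ℂ) {r : ℝ} (hr : 0 < r) :
    ∫ θ in (-Real.pi)..Real.pi, ‖u + circleMap 0 r θ * v‖ ^ 2 =
      2 * Real.pi * (‖u‖ ^ 2 + r ^ 2 * ‖v‖ ^ 2) := by
  have h := parseval_norm (H := fun t => u + t * v) (R := r + 1) (by fun_prop) hr (by linarith)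
  simp only [tc_lin] at h
  have h1 : HasSum (fun k : ℕ => 2 * Real.pi *
      (‖(if k = 0 then u else if k = 1 then v else 0)‖ ^ 2 * r ^ (2 * k)))
      (∑ k ∈ Finset.range 2, 2 * Real.pi *
        (‖(if k = 0 then u else if k = 1 then v else 0)‖ ^ 2 * r ^ (2 * k))) := by
    apply hasSum_sum_of_ne_finset_zero
    intro k hk
    rw [Finset.mem_range, not_lt] at hk
    rw [if_neg (by omega), if_neg (by omega)]
    simp
  rw [h.unique h1, Finset.sum_range_succ, Finset.sum_range_one]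
  simp
  ring

/-- The lower triangular Toeplitz inequality. -/
theorem toeplitz {N : ℕ} {A : ℂ → ℕ → ℕ → ℂ} {R : ℝ} (hA : ∀ j i, DifferentiableOn ℂ
    (fun t => A t j i) (ball 0 R)) (hc : ∀ t ∈ ball (0 : ℂ) R, ∀ u : Fin N → ℂ,
      ∑ j : Fin N, ‖∑ i : Fin N, A t j i * u i‖ ^ 2 ≤ ∑ i : Fin N, ‖u i‖ ^ 2) (hN : 0 < N)
    (u v : Fin N → ℂ) {r : ℝ} (hr : 0 < r) (hrR : r < R) :
    ∑ j : Fin N, ‖∑ i : Fin N, A 0 j i * u i‖ ^ 2 +
      r ^ 2 * ‖∑ i : Fin N, (tc (fun t => A t 0 i) 1 * u i + A 0 0 i * v i)‖ ^ 2 ≤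
      ∑ i : Fin N, ‖u i‖ ^ 2 + r ^ 2 * ∑ i : Fin N, ‖v i‖ ^ 2 := by
  have hR : 0 < R := hr.trans hrR
  have hpi := Real.pi_pos
  set H : Fin N → ℂ → ℂ := fun j t => ∑ i : Fin N, A t j i * (u i + t * v i) with hH
  have hHd : ∀ j, DifferentiableOn ℂ (H j) (ball 0 R) := by
    intro j
    apply DifferentiableOn.fun_sum
    intro i _
    have := hA j i
    fun_prop
  have hmem : ∀ θ : ℝ, circleMap 0 r θ ∈ ball (0 : ℂ) R := by
    intro θ
    rw [mem_ball_zero_iff, norm_circleMap_zero, abs_of_pos hr]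
    exact hrR
  have hHc : ∀ j, Continuous fun θ : ℝ => ‖H j (circleMap 0 r θ)‖ ^ 2 := fun j =>
    (((hHd j).continuousOn.comp_continuous (continuous_circleMap 0 r) hmem).norm).pow 2
  have hlc : ∀ i, Continuous fun θ : ℝ => ‖u i + circleMap 0 r θ * v i‖ ^ 2 := fun i => by
    have := continuous_circleMap (0 : ℂ) r
    fun_prop
  have hint : ∫ θ in (-Real.pi)..Real.pi, ∑ j : Fin N, ‖H j (circleMap 0 r θ)‖ ^ 2 ≤
      ∫ θ in (-Real.pi)..Real.pi, ∑ i : Fin N, ‖u i + circleMap 0 r θ * v i‖ ^ 2 := by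
    apply intervalIntegral.integral_mono_on (by linarith)
    · exact (continuous_finsetSum _ fun j _ => hHc j).intervalIntegrable _ _
    · exact (continuous_finsetSum _ fun j _ => hlc j).intervalIntegrable _ _
    · intro θ _
      exact hc _ (hmem θ) (fun i => u i + circleMap 0 r θ * v i)
  rw [intervalIntegral.integral_finsetSum (fun j _ => (hHc j).intervalIntegrable _ _),
    intervalIntegral.integral_finsetSum (fun j _ => (hlc j).intervalIntegrable _ _)] at hint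
  have h1 : ∑ i : Fin N, ∫ θ in (-Real.pi)..Real.pi, ‖u i + circleMap 0 r θ * v i‖ ^ 2 =
      2 * Real.pi * (∑ i : Fin N, ‖u i‖ ^ 2 + r ^ 2 * ∑ i : Fin N, ‖v i‖ ^ 2) := by
    rw [Finset.sum_congr rfl fun i _ => lin_int (u i) (v i) hr, ← Finset.mul_sum,
      Finset.sum_add_distrib, Finset.mul_sum]
  rw [h1] at hint
  set j0 : Fin N := ⟨0, hN⟩ with hj0
  have ht0 : ∀ j, tc (H j) 0 = ∑ i : Fin N, A 0 j i * u i := by
    intro j
    rw [tc_zero]
    simp [hH]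
  have ht1 : tc (H j0) 1 = ∑ i : Fin N, (tc (fun t => A t 0 i) 1 * u i + A 0 0 i * v i) := by
    have hd : ∀ i : Fin N, DifferentiableOn ℂ (fun t => A t j0 i * (u i + t * v i)) (ball 0 R) :=
      fun i => by
        have := hA j0 i
        fun_prop
    rw [hH]
    simp only
    rw [tc_sum hR _ (fun i _ => hd i)]
    apply Finset.sum_congr rfl
    intro i _
    rw [tc_mul hR (hA j0 i) (by fun_prop)]
    rw [Finset.Nat.sum_antidiagonal_eq_sum_range_succ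
      (fun p q => tc (fun t => A t j0 i) p * tc (fun t : ℂ => u i + t * v i) q) 1,
      Finset.sum_range_succ, Finset.sum_range_one]
    simp only [tc_lin, tc_zero, hj0]
    simp
    ring
  have h2 : 2 * Real.pi * (∑ j : Fin N, ‖∑ i : Fin N, A 0 j i * u i‖ ^ 2 +
      r ^ 2 * ‖∑ i : Fin N, (tc (fun t => A t 0 i) 1 * u i + A 0 0 i * v i)‖ ^ 2) ≤
      ∑ j : Fin N, ∫ θ in (-Real.pi)..Real.pi, ‖H j (circleMap 0 r θ)‖ ^ 2 := by
    rw [← Finset.add_sum_erase _ (fun j : Fin N => ‖∑ i : Fin N, A 0 j i * u i‖ ^ 2)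
        (Finset.mem_univ j0),
      ← Finset.add_sum_erase _ (fun j : Fin N =>
        ∫ θ in (-Real.pi)..Real.pi, ‖H j (circleMap 0 r θ)‖ ^ 2) (Finset.mem_univ j0)]
    have h3 := two_terms (hHd j0) hr hrR
    rw [ht0, ht1] at h3
    have h4 : ∑ j ∈ Finset.univ.erase j0, 2 * Real.pi * ‖∑ i : Fin N, A 0 j i * u i‖ ^ 2 ≤
        ∑ j ∈ Finset.univ.erase j0, ∫ θ in (-Real.pi)..Real.pi, ‖H j (circleMap 0 r θ)‖ ^ 2 := by
      apply Finset.sum_le_sum
      intro j _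
      have h5 := one_term (hHd j) hr hrR
      rwa [ht0] at h5
    rw [← Finset.mul_sum] at h4
    linarith
  have h3 := h2.trans hint
  exact le_of_mul_le_mul_left h3 (by positivity)

/-- Schwarz's lemma for an entry of a holomorphic family of contractions. -/
theorem entry {N : ℕ} {A : ℂ → ℕ → ℕ → ℂ} {R : ℝ} (hA : ∀ j i, DifferentiableOn ℂ
    (fun t => A t j i) (ball 0 R)) (hc : ∀ t ∈ ball (0 : ℂ) R, ∀ u : Fin N → ℂ,
      ∑ j : Fin N, ‖∑ i : Fin N, A t j i * u i‖ ^ 2 ≤ ∑ i : Fin N, ‖u i‖ ^ 2) {k : ℕ}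
    (hk : k < N) {r : ℝ} (hr : 0 < r) (hrR : r < R) {lam lam' : ℝ} (hl : 0 < lam)
    (hrow : 1 - lam ≤ ∑ i ∈ Finset.range N, ‖A 0 0 i‖ ^ 2)
    (hcol : 1 - lam' ≤ ∑ j ∈ Finset.range N, ‖A 0 j k‖ ^ 2) :
    r ^ 2 * ‖tc (fun t => A t 0 k) 1‖ ^ 2 ≤ lam * lam' := by
  set D : ℂ := tc (fun t => A t 0 k) 1 with hD
  set k' : Fin N := ⟨k, hk⟩ with hk'
  have hrow' : 1 - lam ≤ ∑ i : Fin N, ‖A 0 0 i‖ ^ 2 := by
    rwa [Finset.sum_range] at hrow
  have hcol' : 1 - lam' ≤ ∑ j : Fin N, ‖A 0 j k‖ ^ 2 := by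
    rwa [Finset.sum_range] at hcol
  set q : ℝ := ∑ i : Fin N, ‖A 0 0 i‖ ^ 2 with hq
  have hq0 : 0 ≤ q := Finset.sum_nonneg fun i _ => sq_nonneg _
  have h := toeplitz hA hc (by omega) (Pi.single k' (1 : ℂ))
    (fun i => ((lam⁻¹ : ℝ) : ℂ) * D * (starRingEnd ℂ) (A 0 0 i)) hr hrR
  have e1 : ∀ F : Fin N → ℂ, ∑ i : Fin N, F i * (Pi.single k' (1 : ℂ) : Fin N → ℂ) i = F k' := by
    intro F
    rw [Finset.sum_eq_single k']
    · rw [Pi.single_eq_same, mul_one]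
    · intro i _ hne
      rw [Pi.single_eq_of_ne hne, mul_zero]
    · intro h
      exact absurd (Finset.mem_univ _) h
  have e2 : ∑ i : Fin N, ‖(Pi.single k' (1 : ℂ) : Fin N → ℂ) i‖ ^ 2 = 1 := by
    rw [Finset.sum_eq_single k']
    · rw [Pi.single_eq_same]
      simp
    · intro i _ hne
      rw [Pi.single_eq_of_ne hne]
      simp
    · intro h
      exact absurd (Finset.mem_univ _) h
  have e3 : ∑ i : Fin N, ‖((lam⁻¹ : ℝ) : ℂ) * D * (starRingEnd ℂ) (A 0 0 i)‖ ^ 2 =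
      lam⁻¹ ^ 2 * ‖D‖ ^ 2 * q := by
    rw [hq, Finset.mul_sum]
    apply Finset.sum_congr rfl
    intro i _
    rw [norm_mul, norm_mul, RCLike.norm_conj, Complex.norm_real, Real.norm_eq_abs,
      abs_of_pos (inv_pos.2 hl)]
    ring
  have e4 : ∑ i : Fin N, A 0 0 i * (((lam⁻¹ : ℝ) : ℂ) * D * (starRingEnd ℂ) (A 0 0 i)) =
      ((lam⁻¹ * q : ℝ) : ℂ) * D := by
    rw [hq]
    push_cast
    rw [Finset.mul_sum, Finset.sum_mul]
    apply Finset.sum_congr rfl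
    intro i _
    have : A 0 0 i * (starRingEnd ℂ) (A 0 0 i) = ((‖A 0 0 i‖ : ℂ)) ^ 2 := Complex.mul_conj' _
    rw [← this]
    ring
  rw [e2, e3, Finset.sum_add_distrib, e1 (fun i => tc (fun t => A t 0 i) 1), e4] at h
  have e5 : ∀ j : Fin N, ∑ i : Fin N, A 0 j i * (Pi.single k' (1 : ℂ) : Fin N → ℂ) i = A 0 j k :=
    fun j => e1 (fun i => A 0 j i)
  simp only [e5] at h
  have e6 : tc (fun t => A t 0 (k' : ℕ)) 1 + ((lam⁻¹ * q : ℝ) : ℂ) * D =
      ((1 + lam⁻¹ * q : ℝ) : ℂ) * D := by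
    push_cast
    rw [← hD]
    ring
  rw [e6, norm_mul, Complex.norm_real, Real.norm_eq_abs, mul_pow, sq_abs] at h
  have hτ : 0 < lam⁻¹ := inv_pos.2 hl
  have hτl : lam⁻¹ * lam = 1 := inv_mul_cancel₀ hl.ne'
  -- the bracket
  have h7 : lam⁻¹ ≤ (1 + lam⁻¹ * q) ^ 2 - lam⁻¹ ^ 2 * q := by
    have h8 : 0 ≤ lam⁻¹ ^ 2 * q * (q - (1 - lam)) :=
      mul_nonneg (by positivity) (by linarith)
    have h9 : lam⁻¹ ^ 2 * q * lam = lam⁻¹ * q := by
      rw [sq]
      linear_combination (lam⁻¹ * q) * hτl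
    have h10 : 0 ≤ lam⁻¹ * (q - (1 - lam)) := mul_nonneg hτ.le (by linarith)
    nlinarith
  have h8 : r ^ 2 * ‖D‖ ^ 2 * lam⁻¹ ≤ lam' := by
    have h9 := mul_le_mul_of_nonneg_left h7 (by positivity : 0 ≤ r ^ 2 * ‖D‖ ^ 2)
    nlinarith
  have h9 := mul_le_mul_of_nonneg_right h8 hl.le
  rw [mul_assoc, hτl, mul_one] at h9
  linarith

end Pool.Agent.K4H45.LL
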