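import Mathlib
import Pool.Agent.K4H45.LL.Sch
import Pool.Agent.K4H45.LL.PKL
import Pool.Agent.W820.BM.Asm6

/-! # Unicritical polynomials: the explicit inequality -/

set_option autoImplicit false

open Topology Filter Metric Set Polynomial MeasureTheory
open Pool.Agent.H713R3.ZA Pool.Agent.H713R2 Pool.Agent.H713R2.AR

namespace Pool.Agent.K4H45.LL

/-- the parameter of `z ^ (n + 1) + c` -/
def xc (n : ℕ) (c : ℂ) : PE n := fun o => o.elim c (fun _ => 0)

theorem fam_xc (n : ℕ) (c : ℂ) : fam 1 n (xc n c) = X ^ (n + 1) + C c := by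
  have hl : (X ^ (n + 1) + C c : ℂ[X]).leadingCoeff = 1 := by
    rw [leadingCoeff_X_pow_add_C (by omega)]
  have hz : (X ^ (n + 1) + C c : ℂ[X]).coeff 0 = c := by
    simp
  have h := W820.BM.fam_of_deriv (n := n) (T := X ^ (n + 1) + C c) (c := fun _ => 0) (by
    rw [hl]
    simp)
  rw [hl, hz] at h
  exact h

theorem fx_xc (n : ℕ) (c z : ℂ) : fx 1 n (xc n c) z = z ^ (n + 1) + c := by
  unfold fx
  rw [fam_xc]
  simp

section
variable {g : ℂ → ℂ} {s δ : ℝ} {n : ℕ} {c : ℂ}

theorem tc_unic (hs : 0 < s) (hg : DifferentiableOn ℂ g (ball 0 s)) (h0 : g 0 = 1) (hn : 1 ≤ n)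
    (hδ : 0 < δ) (hδ1 : δ ≤ 1) (hδs : δ ≤ s)
    (hfe : ∀ t : ℂ, t ≠ 0 → ‖t‖ < δ → g t ^ (n + 1) + c * t ^ (n + 1) = g (t ^ (n + 1))) :
    (∀ j, 1 ≤ j → j ≤ n → tc g j = 0) ∧ tc g (n + 1) = -(c / (n + 1)) := by
  have hgδ : DifferentiableOn ℂ g (ball 0 δ) := hg.mono (ball_subset_ball hδs)
  have hdg := hgδ.deriv isOpen_ball
  have hds : DifferentiableOn ℂ (dslope g 0) (ball 0 s) :=
    (Complex.differentiableOn_dslope (ball_mem_nhds (0 : ℂ) hs)).2 hg
  have hmap : ∀ t ∈ ball (0 : ℂ) δ, t ^ (n + 1) ∈ ball (0 : ℂ) s := by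
    intro t ht
    rw [mem_ball_zero_iff] at ht ⊢
    rw [norm_pow]
    have h1 : ‖t‖ ^ (n + 1) ≤ ‖t‖ ^ 1 :=
      pow_le_pow_of_le_one (norm_nonneg _) (by linarith) (by omega)
    rw [pow_one] at h1
    linarith
  have hκ : DifferentiableOn ℂ (fun t : ℂ => dslope g 0 (t ^ (n + 1)) - c) (ball 0 δ) :=
    (hds.comp (by fun_prop) hmap).sub_const c
  set κ : ℂ → ℂ := fun t : ℂ => dslope g 0 (t ^ (n + 1)) - c with hκd
  have hdκ := hκ.deriv isOpen_ball
  have hF : ∀ t ∈ ball (0 : ℂ) δ, g t ^ (n + 1) = 1 + t ^ (n + 1) * κ t := by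
    intro t ht
    rw [mem_ball_zero_iff] at ht
    have h1 := sub_smul_dslope g 0 (t ^ (n + 1))
    rw [sub_zero, smul_eq_mul, h0] at h1
    by_cases ht0 : t = 0
    · subst ht0
      rw [h0]
      simp
    · have h2 := hfe t ht0 ht
      rw [hκd]
      simp only
      rw [mul_sub, h1]
      linear_combination h2
  have hder : ∀ t ∈ ball (0 : ℂ) δ, (((n : ℂ) + 1) * g t ^ n) * deriv g t =
      t ^ n * (((n : ℂ) + 1) * κ t + t * deriv κ t) := by
    intro t ht
    have h1 : HasDerivAt g (deriv g t) t :=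
      (hgδ.differentiableAt (isOpen_ball.mem_nhds ht)).hasDerivAt
    have h2 : HasDerivAt κ (deriv κ t) t :=
      (hκ.differentiableAt (isOpen_ball.mem_nhds ht)).hasDerivAt
    have h3 := h1.fun_pow (n + 1)
    have h4 := (((hasDerivAt_id t).fun_pow (n + 1)).fun_mul h2).const_add 1
    have h5 : (fun t => g t ^ (n + 1)) =ᶠ[𝓝 t] fun t => 1 + id t ^ (n + 1) * κ t := by
      filter_upwards [isOpen_ball.mem_nhds ht] with u hu
      exact hF u hu
    have h6 := (h3.congr_of_eventuallyEq h5.symm).unique h4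
    simp only [id_eq] at h6
    push_cast at h6
    linear_combination h6
  have hP : DifferentiableOn ℂ (fun t => ((n : ℂ) + 1) * g t ^ n) (ball 0 δ) := by fun_prop
  have hM : DifferentiableOn ℂ (fun t => ((n : ℂ) + 1) * κ t + t * deriv κ t) (ball 0 δ) := by
    fun_prop
  have htc : ∀ j, ∑ p ∈ Finset.HasAntidiagonal.antidiagonal j, tc (fun t => ((n : ℂ) + 1) * g t ^ n) p.1 *
      tc (deriv g) p.2 = if n ≤ j then
        tc (fun t => ((n : ℂ) + 1) * κ t + t * deriv κ t) (j - n) else 0 := by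
    intro j
    rw [← tc_mul hδ hP hdg, ← tc_pow_mul hδ hM]
    unfold tc
    have hev : (fun t => ((n : ℂ) + 1) * g t ^ n * deriv g t) =ᶠ[𝓝 0]
        fun t => t ^ n * (((n : ℂ) + 1) * κ t + t * deriv κ t) := by
      filter_upwards [ball_mem_nhds (0 : ℂ) hδ] with t ht
      exact hder t ht
    rw [hev.iteratedDeriv_eq]
  have hP0 : tc (fun t => ((n : ℂ) + 1) * g t ^ n) 0 = (n : ℂ) + 1 := by
    rw [tc_zero, h0, one_pow, mul_one]
  have hn1 : (n : ℂ) + 1 ≠ 0 := Nat.cast_add_one_ne_zero n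
  have hlow : ∀ j < n, tc (deriv g) j = 0 := by
    intro j
    induction j using Nat.strong_induction_on with
    | _ j ih =>
      intro hj
      have h1 := htc j
      rw [if_neg (by omega), Finset.Nat.sum_antidiagonal_eq_sum_range_succ
        (fun p q => tc (fun t => ((n : ℂ) + 1) * g t ^ n) p * tc (deriv g) q) j,
        Finset.sum_range_succ', Finset.sum_eq_zero] at h1
      · rw [zero_add, hP0, Nat.sub_zero] at h1
        rcases mul_eq_zero.1 h1 with h | h
        · exact absurd h hn1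
        · exact h
      · intro p hp
        have hp' := Finset.mem_range.1 hp
        rw [ih _ (by omega) (by omega), mul_zero]
  have hg1 : deriv g 0 = 0 := by
    have := hlow 0 (by omega)
    rwa [tc_zero] at this
  have htop : tc (deriv g) n = -c := by
    have h1 := htc n
    rw [if_pos le_rfl, Nat.sub_self, tc_zero, Finset.Nat.sum_antidiagonal_eq_sum_range_succ
      (fun p q => tc (fun t => ((n : ℂ) + 1) * g t ^ n) p * tc (deriv g) q) n,
      Finset.sum_range_succ', Finset.sum_eq_zero] at h1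
    · rw [zero_add, hP0, Nat.sub_zero, zero_mul, add_zero, hκd] at h1
      simp only at h1
      rw [zero_pow (by omega), dslope_same, hg1, zero_sub] at h1
      exact mul_left_cancel₀ hn1 h1
    · intro p hp
      have hp' := Finset.mem_range.1 hp
      rw [hlow _ (by omega), mul_zero]
  constructor
  · intro j hj1 hjn
    obtain ⟨i, rfl⟩ : ∃ i, j = i + 1 := ⟨j - 1, by omega⟩
    have h1 := tc_deriv g i
    rw [hlow i (by omega)] at h1
    rcases mul_eq_zero.1 h1.symm with h | h
    · exact absurd h (Nat.cast_add_one_ne_zero i)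
    · exact h
  · have h1 := tc_deriv g n
    rw [htop] at h1
    field_simp
    linear_combination -h1

theorem tc_pow_zero (hs : 0 < s) (hg : DifferentiableOn ℂ g (ball 0 s))
    (h : ∀ j, 1 ≤ j → j ≤ n → tc g j = 0) (i : ℕ) : ∀ j, 1 ≤ j → j ≤ n →
      tc (fun t => g t ^ i) j = 0 := by
  induction i with
  | zero =>
    intro j hj _
    have : (fun t => g t ^ 0) = fun _ : ℂ => (1 : ℂ) := by
      funext t
      rw [pow_zero]
    rw [this]
    unfold tc
    rw [iteratedDeriv_const, if_neg (by omega), mul_zero]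
  | succ i ih =>
    intro j hj hjn
    have : (fun t => g t ^ (i + 1)) = fun t => g t ^ i * g t := by
      funext t
      rw [pow_succ]
    rw [this, tc_mul hs (by fun_prop) hg]
    apply Finset.sum_eq_zero
    rintro ⟨p, q⟩ hpq
    rw [Finset.HasAntidiagonal.mem_antidiagonal] at hpq
    simp only at hpq ⊢
    rcases Nat.eq_zero_or_pos q with hq | hq
    · rw [ih p (by omega) (by omega), zero_mul]
    · rw [h q hq (by omega), mul_zero]

theorem FB_unic (h : ∀ i j, 1 ≤ j → j ≤ n → tc (fun t => g t ^ i) j = 0) {m : ℕ} (hm : m ≤ n) :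
    FB g m = X ^ m := by
  rw [FB, Finset.sum_eq_zero, sub_zero]
  intro i _
  have hi := i.2
  rw [h m _ (by omega) (by omega), C_0, zero_mul]

end

end Pool.Agent.K4H45.LL
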