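import Mathlib
import Pool.Agent.K4H45.LL.Uni
import Pool.Agent.W820.BM.Ext4

/-! # Unicritical polynomials: the explicit inequality, part 2 -/

set_option autoImplicit false

open Topology Filter Metric Set Polynomial MeasureTheory
open Pool.Agent.H713R3.ZA Pool.Agent.H713R2 Pool.Agent.H713R2.AR

namespace Pool.Agent.K4H45.LL

theorem int_le {U K S : Set ℂ} (hU : U ⊆ S) (hK : K ⊆ S) (hSm : MeasurableSet S)
    (hKm : MeasurableSet K) {Rz η : ℝ} (hη : 0 ≤ η) (hS : ∀ z ∈ S, ‖z‖ ≤ Rz)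
    (hvol : volume S ≤ volume K + ENNReal.ofReal η) (k : ℕ) :
    ∫ z in U, ‖z‖ ^ (2 * k) ≤ (∫ z in K, ‖z‖ ^ (2 * k)) + Rz ^ (2 * k) * η := by
  have hSf : volume S < ⊤ :=
    (measure_mono (fun z hz => by
      rw [mem_closedBall_zero_iff]
      exact hS z hz : S ⊆ closedBall (0 : ℂ) Rz)).trans_lt measure_closedBall_lt_top
  have hKf : volume K < ⊤ := (measure_mono hK).trans_lt hSf
  have hc : Continuous fun z : ℂ => ‖z‖ ^ (2 * k) := by fun_prop
  have hb : ∀ z ∈ S, ‖‖z‖ ^ (2 * k)‖ ≤ Rz ^ (2 * k) := by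
    intro z hz
    rw [norm_pow, norm_norm]
    exact pow_le_pow_left₀ (norm_nonneg _) (hS z hz) _
  have hint : IntegrableOn (fun z : ℂ => ‖z‖ ^ (2 * k)) S :=
    Measure.integrableOn_of_bounded hSf.ne hc.aestronglyMeasurable
      ((ae_restrict_iff' hSm).2 (Filter.Eventually.of_forall hb))
  have h1 : ∫ z in U, ‖z‖ ^ (2 * k) ≤ ∫ z in S, ‖z‖ ^ (2 * k) :=
    setIntegral_mono_set hint (Filter.Eventually.of_forall fun z => by positivity)
      (Filter.Eventually.of_forall hU)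
  have h2 := setIntegral_sdiff hKm hint hK
  have h3 : volume (S \ K) ≤ ENNReal.ofReal η := by
    rw [measure_sdiff hK hKm.nullMeasurableSet hKf.ne]
    exact tsub_le_iff_left.2 hvol
  have h4 : ∫ z in S \ K, ‖z‖ ^ (2 * k) ≤ Rz ^ (2 * k) * η := by
    have h5 := norm_setIntegral_le_of_norm_le_const (μ := (volume : Measure ℂ)) (s := S \ K)
      (f := fun z : ℂ => ‖z‖ ^ (2 * k)) (C := Rz ^ (2 * k))
      (h3.trans_lt ENNReal.ofReal_lt_top) (fun z hz => hb z hz.1)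
    refine (le_abs_self _).trans (h5.trans ?_)
    by_cases hne : (S \ K).Nonempty
    · obtain ⟨z, hz⟩ := hne
      have h6 : 0 ≤ Rz ^ (2 * k) := (norm_nonneg _).trans (hb z hz.1)
      exact mul_le_mul_of_nonneg_left (ENNReal.toReal_le_of_le_ofReal hη h3) h6
    · rw [not_nonempty_iff_eq_empty] at hne
      have h7 : 0 ≤ Rz ^ (2 * k) := by
        rw [pow_mul]
        positivity
      rw [hne]
      simp only [measureReal_empty, mul_zero]
      positivity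
  linarith

section
variable {a : ℂ} {n : ℕ} {B Rb C₁ R₁ R₃ : ℝ} {ψ φ : PE n × ℂ → ℂ}

theorem KJ_meas (hb : BO a n B Rb C₁ R₁ R₃ ψ φ) {x : PE n} (hx : x ∈ ball (0 : PE n) B) :
    MeasurableSet (KJ (fam a n x)) := by
  have h : KJ (fam a n x) = ⋂ N : ℕ, {z : ℂ | ‖(fx a n x)^[N] z‖ ≤ Rb} := by
    ext z
    simp only [mem_iInter, mem_ofPred_eq]
    constructor
    · intro hz N
      exact (lt_of_mem_KJ hb hx hz N).le
    · intro hz hcon
      obtain ⟨k, hk⟩ := (hcon.eventually (eventually_gt_atTop Rb)).exists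
      exact absurd (hz k) (not_le.mpr hk)
  rw [h]
  apply MeasurableSet.iInter
  intro N
  exact (isClosed_le ((fx_differentiable a n x).continuous.iterate N).norm
    continuous_const).measurableSet

end

theorem tc_congr {F F' : ℂ → ℂ} (h : F =ᶠ[𝓝 0] F') (k : ℕ) : tc F k = tc F' k := by
  unfold tc
  rw [h.iteratedDeriv_eq]

theorem xc_norm {n : ℕ} {c : ℂ} {B : ℝ} (hB : 0 < B) (hc : ‖c‖ < B) : ‖xc n c‖ < B := by
  rw [pi_norm_lt_iff hB]
  intro o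
  cases o with
  | none => exact hc
  | some i =>
    show ‖(0 : ℂ)‖ < B
    rw [norm_zero]
    exact hB

theorem xc_diff (n : ℕ) : Differentiable ℂ (fun c : ℂ => xc n c) := by
  rw [differentiable_pi]
  intro o
  cases o with
  | none => exact differentiable_id
  | some i => exact differentiable_const _

/-- the inequality at a finite level -/
theorem uni_level {k : ℕ} {c : ℂ} {r : ℝ} (hr : 0 < r)
    (hM : ∀ c' : ℂ, ‖c' - c‖ < r → (0 : ℂ) ∈ KJ (X ^ (k + 1 + 1) + C c')) :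
    volume (KJ (X ^ (k + 1 + 1) + C c)) < ⊤ ∧ ∃ E : ℝ, 0 < E ∧ ∀ η : ℝ, 0 < η → ∀ r' : ℝ,
      0 < r' → r' < r → (Real.pi * r') ^ 2 ≤ ((k : ℝ) + 2) ^ 2 *
        (((volume (KJ (X ^ (k + 1 + 1) + C c))).toReal + η) *
        ((∫ z in KJ (X ^ (k + 1 + 1) + C c), ‖z‖ ^ (2 * k)) + E * η)) := by
  set n : ℕ := k + 1 with hnk
  have hn : 1 ≤ n := by omega
  obtain ⟨B, hBd⟩ : ∃ B : ℝ, B = ‖c‖ + r + 1 := ⟨_, rfl⟩
  have hB : 0 < B := by rw [hBd]; positivity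
  obtain ⟨Rb, C₁, R₁, R₃, ψ, φ, hb⟩ := exists_boett bsum_holds inv_holds (a := 1) one_ne_zero hn hB
  have k1 := hb.hR; have k2 := hb.hC; have k3 := hb.hR₁; have k4 := hb.hR₃
  have hcB : ∀ c' : ℂ, ‖c' - c‖ < r → xc n c' ∈ ball (0 : PE n) B := by
    intro c' hc'
    rw [mem_ball_zero_iff]
    apply xc_norm hB
    have := norm_le_norm_add_norm_sub' c' c
    linarith
  have hc0 : ‖c - c‖ < r := by rw [sub_self, norm_zero]; exact hr
  set xT : PE n := xc n c with hxTd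
  have hxT : xT ∈ ball (0 : PE n) B := hcB c hc0
  have hfam : fam 1 n xT = X ^ (n + 1) + C c := fam_xc n c
  rw [← hfam]
  refine ⟨W177.BM.KJ_fin hb hxT, ?_⟩
  set V : ℝ := (volume (KJ (fam 1 n xT))).toReal with hV
  have hV0 : 0 ≤ V := ENNReal.toReal_nonneg
  obtain ⟨R₄, hR₄⟩ : ∃ R₄ : ℝ, R₄ = R₃ + C₁ := ⟨_, rfl⟩
  obtain ⟨ρM, hρM⟩ : ∃ ρM : ℝ, ρM = max R₁ (R₄ + 1) + 1 := ⟨_, rfl⟩
  obtain ⟨Rz, hRzd⟩ : ∃ Rz : ℝ, Rz = max Rb (R₄ + 1 + C₁) := ⟨_, rfl⟩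
  have hRz1 : 1 ≤ Rz := by
    have := le_max_left Rb (R₄ + 1 + C₁)
    linarith
  refine ⟨Rz ^ (2 * k), by positivity, fun η hη r' hr' hr'r => ?_⟩
  obtain ⟨N, hN⟩ := W177.BM.exists_vol hb hxT (show 0 < η / 4 by positivity) (R₄ + 1 + C₁)
  obtain ⟨ρ4, ρ5, hr1', hr2, hr3, hr4, hr5⟩ := W177.BM.exists_radii hb hn (ρ0 := 1)
    (show 1 < R₄ by linarith) le_rfl (by simp) N
  have hρ4 : 0 < ρ4 := by linarith
  have hρ5 : 0 < ρ5 := by linarith
  set s : ℝ := ρ4⁻¹ with hs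
  set s' : ℝ := ρ5⁻¹ with hs'
  have hs0 : 0 < s := inv_pos.2 hρ4
  have hs'0 : 0 < s' := inv_pos.2 hρ5
  have hlt : s' < s := (inv_lt_inv₀ hρ5 hρ4).2 hr2
  have hnorm : ∀ {ρ : ℝ}, 0 < ρ → ‖(fun w : ℂ => 1 * w ^ (n + 1))^[N] (((ρ⁻¹ : ℝ) : ℂ)⁻¹)‖ =
      (W177.BM.qm 1 n)^[N] ρ := by
    intro ρ hρ
    rw [W177.BM.norm_QQ, norm_inv, Complex.norm_real, Real.norm_eq_abs,
      abs_of_pos (inv_pos.2 hρ), inv_inv]
  obtain ⟨G, hG⟩ := W820.BM.ext_holds 1 n N B Rb C₁ R₁ R₃ R₃ R₄ s ψ φ one_ne_zero hn hb le_rfl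
    (by rw [hR₄]) hs0 (by rw [hs, hnorm hρ4, hr4])
  set Om := W820.BM.OmN 1 n N B R₃ with hOm
  have hOo : IsOpen Om := W177.BM.isOpen_OmN 1 n N B R₃
  have hxO : ∀ c' : ℂ, ‖c' - c‖ < r → xc n c' ∈ Om := by
    intro c' hc'
    refine ⟨hcB c' hc', fun i j _ _ => ?_⟩
    have h0 : (0 : ℂ) ∈ KJ (fam 1 n (xc n c')) := by
      rw [fam_xc]
      exact hM c' hc'
    have h2 := lt_of_mem_KJ hb (hcB c' hc') h0 j
    have h3 : xc n c' (some i) = 0 := rfl
    rw [h3]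
    linarith
  have hxTO : xT ∈ Om := hxO c hc0
  have hext : ∀ x ∈ Om, IsExt s (fun t => G (x, t)) := by
    intro x hx
    refine ⟨?_, hG.zero x hx, ?_⟩
    · exact hG.diff.comp (by fun_prop) fun t ht => ⟨hx, ht⟩
    · intro t ht u hu ht0 hu0 htu
      exact hG.inj x hx t ht u hu ht0 hu0 htu
  -- the sublevel set
  obtain ⟨S, hSd⟩ : ∃ S : Set ℂ, S = {z : ℂ | ‖(fx 1 n xT)^[N] z‖ ≤ R₄ + 1 + C₁} := ⟨_, rfl⟩
  have hcompl : (UU (fun t => G (xT, t)) s')ᶜ ⊆ S := by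
    intro z hz
    rw [hSd, mem_ofPred_eq]
    by_contra hcon
    rw [not_le] at hcon
    apply hz
    obtain ⟨t, ht1, ht2, ht3⟩ := hG.surj xT hxTO s' z hs'0 hlt.le (by
      rw [hs', hnorm hρ5, hr5]
      exact hcon)
    exact ⟨t, ⟨ht1, ht2⟩, ht3⟩
  have hSb : ∀ z ∈ S, ‖z‖ ≤ Rz := by
    intro z hz
    rw [hSd, mem_ofPred_eq] at hz
    by_contra hcon
    rw [not_le, hRzd, max_lt_iff] at hcon
    have h2 := iter_large hb hxT hcon.1.le N
    linarith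
  have hSm : MeasurableSet S := by
    rw [hSd]
    exact (isClosed_le ((fx_differentiable 1 n xT).continuous.iterate N).norm
      continuous_const).measurableSet
  have hKS : KJ (fam 1 n xT) ⊆ S := by
    intro z hz
    rw [hSd, mem_ofPred_eq]
    have := lt_of_mem_KJ hb hxT hz N
    linarith
  have hKm := KJ_meas hb hxT
  have hint := int_le hcompl hKS hSm hKm (show 0 ≤ η / 4 by positivity) hSb (by
    rw [hSd]
    exact hN)
  -- the first coefficients at infinity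
  have hcoef : ∀ c' : ℂ, ‖c' - c‖ < r →
      (∀ j, 1 ≤ j → j ≤ n → tc (fun t => G (xc n c', t)) j = 0) ∧
        tc (fun t => G (xc n c', t)) (n + 1) = -(c' / (n + 1)) := by
    intro c' hc'
    obtain ⟨δ, hδ0, hδ1, hδs, hδR⟩ : ∃ δ : ℝ, 0 < δ ∧ δ ≤ 1 ∧ δ ≤ s ∧ R₁ < δ⁻¹ := by
      refine ⟨min 1 (min s (R₁ + 1)⁻¹), ?_, min_le_left _ _, ?_, ?_⟩
      · have : 0 < (R₁ + 1)⁻¹ := by
          apply inv_pos.2
          linarith
        positivity
      · exact (min_le_right _ _).trans (min_le_left _ _)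
      · have h1 : 0 < (R₁ + 1)⁻¹ := by
          apply inv_pos.2
          linarith
        have h2 : min 1 (min s (R₁ + 1)⁻¹) ≤ (R₁ + 1)⁻¹ :=
          (min_le_right _ _).trans (min_le_right _ _)
        have h3 : R₁ + 1 ≤ (min 1 (min s (R₁ + 1)⁻¹))⁻¹ := by
          rw [le_inv_comm₀ (by linarith) (by positivity)]
          exact h2
        linarith
    apply tc_unic hs0 (hext _ (hxO c' hc')).diff (hext _ (hxO c' hc')).zero hn hδ0 hδ1 hδs
    intro t ht0 ht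
    have ht1 : ‖t ^ (n + 1)‖ ≤ ‖t‖ := by
      rw [norm_pow]
      have h1 : ‖t‖ ^ (n + 1) ≤ ‖t‖ ^ 1 :=
        pow_le_pow_of_le_one (norm_nonneg _) (by linarith) (by omega)
      rwa [pow_one] at h1
    have htp : 0 < ‖t‖ := norm_pos_iff.2 ht0
    have hR1 : R₁ < ‖t⁻¹‖ := by
      rw [norm_inv]
      have : δ⁻¹ < ‖t‖⁻¹ := (inv_lt_inv₀ hδ0 htp).2 ht
      linarith
    have htn0 : t ^ (n + 1) ≠ 0 := pow_ne_zero _ ht0
    have hR2 : R₁ < ‖(t ^ (n + 1))⁻¹‖ := by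
      rw [norm_inv] at hR1 ⊢
      have : ‖t‖⁻¹ ≤ ‖t ^ (n + 1)‖⁻¹ := inv_anti₀ (norm_pos_iff.2 htn0) ht1
      linarith
    have n1 := hG.near _ (hxO c' hc') t ht0 (by linarith) hR1
    have n2 := hG.near _ (hxO c' hc') (t ^ (n + 1)) htn0 (by linarith) hR2
    have n3 := hb.fe _ (hcB c' hc') t⁻¹ hR1
    rw [one_mul, inv_pow] at n3
    rw [← n1, fx_xc, ← n2, mul_pow, inv_pow] at n3
    have h4 : t ^ (n + 1) * ((t ^ (n + 1))⁻¹ * G (xc n c', t) ^ (n + 1) + c') =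
        t ^ (n + 1) * ((t ^ (n + 1))⁻¹ * G (xc n c', t ^ (n + 1))) := by
      rw [n3]
    rw [mul_add, mul_inv_cancel_left₀ htn0, mul_inv_cancel_left₀ htn0] at h4
    linear_combination h4
  have hTdiff := (hext xT hxTO).diff
  have hpow := tc_pow_zero hs0 hTdiff (hcoef c hc0).1
  have hFB : ∀ i ≤ k, FB (fun t => G (xT, t)) (i + 1) = X ^ (i + 1) := fun i hi =>
    FB_unic (n := n) (fun i j h1 h2 => hpow i j h1 h2) (by omega)
  -- the defects
  set I : ℕ → ℝ := fun i => ∫ z in KJ (fam 1 n xT), ‖z‖ ^ (2 * i) with hI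
  have hI0 : ∀ i, 0 ≤ I i := fun i => integral_nonneg fun z => by positivity
  set lam : ℕ → ℝ := fun i => wt s' i ^ 2 / Real.pi * (((i : ℝ) + 1) ^ 2 *
    (I i + Rz ^ (2 * i) * η)) with hlam
  have hlam0 : ∀ i, 0 < lam i := by
    intro i
    have h1 := wt_pos hs'0 i
    have h2 := hI0 i
    have h3 : 0 < I i + Rz ^ (2 * i) * η := by positivity
    rw [hlam]
    have := Real.pi_pos
    simp only
    positivity
  have hcolumn : ∀ i ≤ k, ∀ᶠ M : ℕ in atTop, 1 - lam i ≤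
      ∑ j ∈ Finset.range M, ‖mu (fun t => G (xT, t)) s' j i‖ ^ 2 := by
    intro i hi
    have h1 := (column hs'0 hlt (hext xT hxTO) i).tendsto_sum_nat
    rw [hFB i hi] at h1
    have h2 : ∫ z in (UU (fun t => G (xT, t)) s')ᶜ,
        ‖(derivative (X ^ (i + 1) : ℂ[X])).eval z‖ ^ 2 =
        ((i : ℝ) + 1) ^ 2 * ∫ z in (UU (fun t => G (xT, t)) s')ᶜ, ‖z‖ ^ (2 * i) := by
      rw [← integral_const_mul]
      congr 1
      funext z
      rw [derivative_X_pow, eval_mul, eval_C, eval_pow, eval_X, Nat.add_sub_cancel, norm_mul,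
        norm_pow, mul_pow, ← pow_mul, mul_comm i 2, Complex.norm_natCast]
      push_cast
      rfl
    rw [h2] at h1
    refine (h1.eventually_const_lt ?_).mono fun M hM => hM.le
    have h3 := hint i
    have h4 : ∫ z in (UU (fun t => G (xT, t)) s')ᶜ, ‖z‖ ^ (2 * i) < I i + Rz ^ (2 * i) * η := by
      refine h3.trans_lt ?_
      have h5 : 0 < Rz ^ (2 * i) := by positivity
      have h6 : Rz ^ (2 * i) * (η / 4) < Rz ^ (2 * i) * η :=
        mul_lt_mul_of_pos_left (by linarith) h5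
      linarith
    have h5 : wt s' i ^ 2 / Real.pi * (((i : ℝ) + 1) ^ 2 *
        ∫ z in (UU (fun t => G (xT, t)) s')ᶜ, ‖z‖ ^ (2 * i)) < lam i := by
      rw [hlam]
      have h7 := wt_pos hs'0 i
      have := Real.pi_pos
      exact mul_lt_mul_of_pos_left (mul_lt_mul_of_pos_left h4 (by positivity)) (by positivity)
    linarith
  obtain ⟨M, hMk, hM0, hM1⟩ : ∃ M : ℕ, k < M ∧ 1 - lam 0 ≤
      ∑ j ∈ Finset.range M, ‖mu (fun t => G (xT, t)) s' j 0‖ ^ 2 ∧ 1 - lam k ≤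
      ∑ j ∈ Finset.range M, ‖mu (fun t => G (xT, t)) s' j k‖ ^ 2 :=
    ((eventually_gt_atTop k).and
      ((hcolumn 0 (by omega)).and (hcolumn k le_rfl))).exists
  -- the family
  have hct : ∀ t ∈ ball (0 : ℂ) r, ‖c + t - c‖ < r := by
    intro t ht
    rw [add_sub_cancel_left]
    exact mem_ball_zero_iff.1 ht
  have hxt : ∀ t ∈ ball (0 : ℂ) r, xc n (c + t) ∈ Om := fun t ht => hxO _ (hct t ht)
  have hz : xc n (c + 0) = xT := by rw [add_zero]
  have key := entry (N := M) (A := fun t => mu (fun u => G (xc n (c + t), u)) s') (R := r)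
    (fun j i => (mu_diff hOo hs0 hG.diff s' j i).comp
      ((xc_diff n).comp (differentiable_id.const_add c)).differentiableOn hxt)
    (fun t ht u => contr hs'0 hlt (hext _ (hxt t ht)) u) hMk hr' hr'r (hlam0 0)
    (by
      rw [hz]
      refine hM0.trans (le_of_eq ?_)
      apply Finset.sum_congr rfl
      intro i _
      rw [mu_symm hs0 hTdiff (hext xT hxTO).zero i])
    (by
      rw [hz]
      exact hM1)
  set W : ℝ := wt s' 0 * wt s' k * ((k : ℝ) + 1) with hW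
  have hD : tc (fun t => mu (fun u => G (xc n (c + t), u)) s' 0 k) 1 =
      -((W : ℝ) : ℂ) / ((n : ℂ) + 1) := by
    have hev : (fun t => mu (fun u => G (xc n (c + t), u)) s' 0 k) =ᶠ[𝓝 0]
        fun t => -((W : ℝ) : ℂ) * c / ((n : ℂ) + 1) + t * (-((W : ℝ) : ℂ) / ((n : ℂ) + 1)) := by
      filter_upwards [ball_mem_nhds (0 : ℂ) hr] with t ht
      have h1 : tc (fun u => G (xc n (c + t), u)) (k + 2) = -((c + t) / ((n : ℂ) + 1)) :=
        (hcoef _ (hct t ht)).2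
      rw [mu_row hs0 (hext _ (hxt t ht)).diff (hext _ (hxt t ht)).zero, ← hW, h1]
      ring
    rw [tc_congr hev, tc_lin]
    simp
  rw [hD, norm_div, norm_neg, Complex.norm_real, Real.norm_eq_abs] at key
  have hn1 : ‖((n : ℂ) + 1)‖ = (k : ℝ) + 2 := by
    have : ((n : ℂ) + 1) = ((n + 1 : ℕ) : ℂ) := by push_cast; rfl
    rw [this, Complex.norm_natCast, hnk]
    push_cast
    ring
  rw [hn1, div_pow, sq_abs] at key
  have hW2 : W ^ 2 = s' ^ (2 * (k + 2)) * (k + 1) := by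
    rw [hW, mul_pow, mul_pow, wt_sq, wt_sq]
    push_cast
    field_simp
    ring
  have hl0 : lam 0 = s' ^ 2 / Real.pi * (V + η) := by
    rw [hlam]
    simp only
    rw [wt_sq]
    have h1 : I 0 = V := by
      rw [hI]
      simp only [mul_zero, pow_zero]
      rw [setIntegral_const, smul_eq_mul, mul_one]
      rfl
    rw [h1]
    simp
  have hlk : lam k = s' ^ (2 * (k + 1)) * (k + 1) / Real.pi * (I k + Rz ^ (2 * k) * η) := by
    rw [hlam]
    simp only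
    rw [wt_sq]
    field_simp
  rw [hW2, hl0, hlk] at key
  have hsp : 0 < s' ^ (2 * (k + 2)) * ((k : ℝ) + 1) := by positivity
  have hpi := Real.pi_pos
  have key2 : s' ^ (2 * (k + 2)) * ((k : ℝ) + 1) * (Real.pi * r') ^ 2 ≤
      s' ^ (2 * (k + 2)) * ((k : ℝ) + 1) * (((k : ℝ) + 2) ^ 2 *
        ((V + η) * (I k + Rz ^ (2 * k) * η))) := by
    have h1 := mul_le_mul_of_nonneg_right key
      (by positivity : 0 ≤ Real.pi ^ 2 * ((k : ℝ) + 2) ^ 2)
    have e1 : r' ^ 2 * (s' ^ (2 * (k + 2)) * ((k : ℝ) + 1) / ((k : ℝ) + 2) ^ 2) *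
        (Real.pi ^ 2 * ((k : ℝ) + 2) ^ 2) =
        s' ^ (2 * (k + 2)) * ((k : ℝ) + 1) * (Real.pi * r') ^ 2 := by
      field_simp
    have e2 : s' ^ 2 / Real.pi * (V + η) *
        (s' ^ (2 * (k + 1)) * ((k : ℝ) + 1) / Real.pi * (I k + Rz ^ (2 * k) * η)) *
        (Real.pi ^ 2 * ((k : ℝ) + 2) ^ 2) =
        s' ^ (2 * (k + 2)) * ((k : ℝ) + 1) * (((k : ℝ) + 2) ^ 2 *
          ((V + η) * (I k + Rz ^ (2 * k) * η))) := by
      field_simp
      ring
    rw [e1, e2] at h1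
    exact h1
  exact le_of_mul_le_mul_left key2 hsp

/-- The explicit inequality for unicritical polynomials. -/
theorem uni {n : ℕ} (hn : 1 ≤ n) {c : ℂ} {r : ℝ} (hr : 0 < r)
    (hM : ∀ c' : ℂ, ‖c' - c‖ < r → (0 : ℂ) ∈ KJ (X ^ (n + 1) + C c')) :
    volume (KJ (X ^ (n + 1) + C c)) < ⊤ ∧ (Real.pi * r) ^ 2 ≤ ((n : ℝ) + 1) ^ 2 *
      ((volume (KJ (X ^ (n + 1) + C c))).toReal *
        ∫ z in KJ (X ^ (n + 1) + C c), ‖z‖ ^ (2 * (n - 1))) := by
  obtain ⟨k, rfl⟩ : ∃ k, n = k + 1 := ⟨n - 1, by omega⟩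
  obtain ⟨h1, E, hE, h2⟩ := uni_level hr hM
  refine ⟨h1, ?_⟩
  rw [Nat.add_sub_cancel]
  set V : ℝ := (volume (KJ (X ^ (k + 1 + 1) + C c))).toReal with hV
  set I : ℝ := ∫ z in KJ (X ^ (k + 1 + 1) + C c), ‖z‖ ^ (2 * k) with hI
  have h3 : ∀ r' : ℝ, 0 < r' → r' < r → (Real.pi * r') ^ 2 ≤ ((k : ℝ) + 2) ^ 2 * (V * I) := by
    intro r' hr' hr'r
    have h4 : Tendsto (fun η : ℝ => ((k : ℝ) + 2) ^ 2 * ((V + η) * (I + E * η))) (𝓝[>] 0)
        (𝓝 (((k : ℝ) + 2) ^ 2 * ((V + 0) * (I + E * 0)))) := by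
      apply Tendsto.mono_left _ nhdsWithin_le_nhds
      apply Continuous.tendsto
      fun_prop
    rw [add_zero, mul_zero, add_zero] at h4
    apply ge_of_tendsto h4
    filter_upwards [self_mem_nhdsWithin] with η hη
    exact h2 η hη r' hr' hr'r
  have h5 : Tendsto (fun r' : ℝ => (Real.pi * r') ^ 2) (𝓝[<] r) (𝓝 ((Real.pi * r) ^ 2)) := by
    apply Tendsto.mono_left _ nhdsWithin_le_nhds
    apply Continuous.tendsto
    fun_prop
  have h6 : (Real.pi * r) ^ 2 ≤ ((k : ℝ) + 2) ^ 2 * (V * I) := by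
    apply le_of_tendsto h5
    filter_upwards [Ioo_mem_nhdsLT hr] with r' hr'
    exact h3 r' hr'.1 hr'.2
  refine h6.trans (le_of_eq ?_)
  push_cast
  ring

/-- The Mandelbrot set. -/
theorem quad {c : ℂ} {r : ℝ} (hr : 0 < r)
    (hM : ∀ c' : ℂ, ‖c' - c‖ < r → (0 : ℂ) ∈ KJ (X ^ 2 + C c')) :
    volume (KJ (X ^ 2 + C c)) < ⊤ ∧ Real.pi * r ≤ 2 * (volume (KJ (X ^ 2 + C c))).toReal := by
  obtain ⟨h1, h2⟩ := uni (n := 1) le_rfl hr hM
  refine ⟨h1, ?_⟩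
  simp only [Nat.sub_self, mul_zero, pow_zero] at h2
  rw [setIntegral_const, smul_eq_mul, mul_one] at h2
  have h3 : (volume (KJ (X ^ (1 + 1) + C c))).toReal = (volume (KJ (X ^ 2 + C c))).toReal := rfl
  have h4 : (volume : Measure ℂ).real (KJ (X ^ (1 + 1) + C c)) =
    (volume (KJ (X ^ 2 + C c))).toReal := rfl
  rw [h3, h4] at h2
  have h5 : 0 ≤ (volume (KJ (X ^ 2 + C c))).toReal := ENNReal.toReal_nonneg
  have h6 : (Real.pi * r) ^ 2 ≤ (2 * (volume (KJ (X ^ 2 + C c))).toReal) ^ 2 := by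
    refine h2.trans (le_of_eq ?_)
    push_cast
    ring
  exact le_of_sq_le_sq h6 (by positivity)

end Pool.Agent.K4H45.LL
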